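import Pool.Agent.Lib.MP_8a52c3_lc.Corp.Defs

namespace Pool.Agent.Lib.MP_8a52c3_lc.Corp
open Finset

lemma filt_basis {F : Type} [Field F] {E : Type} [AddCommGroup E] [Module F E] (a : ℕ) (W : ℕ → Submodule F E)
    (hW : ∀ m, m < a → W (m + 1) ≤ W m) : ∃ b : Set E, LinearIndepOn F id b ∧ b ⊆ W 0 ∧
      ∀ m, m ≤ a → W m ≤ Submodule.span F (b ∩ W m) := by
  induction a generalizing W with
  | zero =>
    obtain ⟨b, h1, -, h2, h3⟩ := exists_linearIndepOn_id_extension (linearIndepOn_empty F id)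
      (Set.empty_subset (W 0 : Set E))
    refine ⟨b, h3, h1, fun m hm => ?_⟩
    rwa [Nat.le_zero.1 hm, Set.inter_eq_left.2 h1]
  | succ a ih =>
    obtain ⟨b', h1, h2, h3⟩ := ih (fun m => W (m + 1)) fun m hm => hW _ (by omega)
    obtain ⟨b, h4, h5, h6, h7⟩ := exists_linearIndepOn_id_extension h1
      (h2.trans (hW 0 (by omega)))
    refine ⟨b, h7, h4, ?_⟩
    rintro (_ | m) hm
    · rwa [Set.inter_eq_left.2 h4]
    · exact (h3 m (by omega)).trans (Submodule.span_mono (Set.inter_subset_inter_left _ h5))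

lemma filt_info {F : Type} [Field F] {X : Type} {n : ℕ} (r : X → Fin n → F) (A : Set X)
    (h : ∀ y : Fin n → F, (∀ x ∈ A, ∑ u, y u * r x u = 0) → y = 0) :
    ∃ β : Fin n → X, (∀ u, β u ∈ A) ∧ Function.Injective β ∧
      ∀ y : Fin n → F, (∀ u', ∑ u, y u * r (β u') u = 0) → y = 0 := by
  have h1 : Submodule.span F (r '' A) = ⊤ := by
    by_contra h2
    obtain ⟨φ, h3, h4⟩ := Submodule.exists_le_ker_of_lt_top _ (lt_top_iff_ne_top.2 h2)
    have h5 := h (fun i => φ fun j => if i = j then 1 else 0) fun x hx => by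
      have h6 : φ (r x) = 0 := h4 (Submodule.subset_span ⟨x, hx, rfl⟩)
      rw [φ.pi_apply_eq_sum_univ] at h6
      simpa only [smul_eq_mul, mul_comm] using h6
    refine h3 (LinearMap.ext fun x => ?_)
    rw [φ.pi_apply_eq_sum_univ]
    exact sum_eq_zero fun i _ => by rw [show φ _ = 0 from congrFun h5 i, smul_zero]
  have h2 := Submodule.exists_fun_fin_finrank_span_eq F (r '' A)
  rw [h1, finrank_top, Module.finrank_fin_fun] at h2
  obtain ⟨f, h3, h4, h5⟩ := h2
  choose β h6 h7 using h3
  refine ⟨β, h6, fun u u' e => h5.injective (by rw [← h7, ← h7, e]), fun y hy => funext fun i => ?_⟩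
  have h8 : ∀ z ∈ Submodule.span F (Set.range f), ∑ u, y u * z u = 0 := fun z hz => by
    induction hz using Submodule.span_induction with
    | mem z hz =>
      obtain ⟨u, rfl⟩ := hz
      exact h7 u ▸ hy u
    | zero => simp
    | add z z' _ _ e e' => simp only [Pi.add_apply, mul_add, sum_add_distrib, e, e', add_zero]
    | smul c z _ e =>
      simp only [Pi.smul_apply, smul_eq_mul, mul_left_comm _ c, ← mul_sum, e, mul_zero]
  simpa [Pi.single_apply] using h8 (Pi.single i 1) (h4 ▸ Submodule.mem_top)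

/-- A filtered space of functions determined by its values on `A false` and by those on `A true`
gives a pairing. -/
theorem pairing_exists {K : Type} [Field K] {X : Type} [Fintype X]
    (D W : ℕ → Submodule K (X → K)) (a : ℕ)
    (hW : ∀ m, m < a → W (m + 1) ≤ W m)
    (hmul : ∀ (δ m : ℕ) (g f : X → K), δ ≤ m → m ≤ a → g ∈ D δ → f ∈ W m → g * f ∈ W (m - δ))
    (A : Bool → Set X) (hA : ∀ b, ∀ f ∈ W 0, (∀ x ∈ A b, f x = 0) → f = 0) :
    ∃ P : Pairing X D, (∀ b u, P.β b u ∈ A b) ∧
      ∀ m, m ≤ a → Module.finrank K (W m) ≤ (univ.filter (fun u => m ≤ P.μ u)).card := by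
  classical
  obtain ⟨b, h1, h2, h3⟩ := filt_basis a W hW
  have hb : Finite b := LinearIndependent.finite (R := K) (M := X → K) h1
  obtain ⟨n, ⟨e⟩⟩ := Finite.exists_equiv_fin b
  have hv : LinearIndependent K fun u => (e.symm u : X → K) := h1.comp _ e.symm.injective
  have h0 : ∀ u, (e.symm u : X → K) ∈ W 0 := fun u => h2 (e.symm u).2
  let μ := fun u => Nat.findGreatest (fun m => (e.symm u : X → K) ∈ W m) a
  have h4 : ∀ m, m ≤ a → W m ≤ Submodule.span K ((fun u => (e.symm u : X → K)) '' {u | m ≤ μ u}) :=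
    fun m hm => (h3 m hm).trans (Submodule.span_mono fun f hf =>
      ⟨e ⟨f, hf.1⟩, Nat.le_findGreatest hm (by simpa using hf.2), by simp⟩)
  choose β h5 h6 h7 using fun c => filt_info (fun x u => (e.symm u : X → K) x) (A c) fun y hy =>
    funext (Fintype.linearIndependent_iff.1 hv y (hA c _
      (Submodule.sum_mem _ fun u _ => Submodule.smul_mem _ _ (h0 u)) fun x hx => by
        simpa using hy x hx))
  refine ⟨⟨n, μ, fun u => e.symm u, β, h6, h7, fun δ g hg u hu => ?_⟩, h5, fun m hm => ?_⟩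
  · have h8 : μ u ≤ a := Nat.findGreatest_le a
    exact Submodule.span_mono (Set.image_mono fun u' hu' => Nat.sub_le_iff_le_add.1 hu')
      (h4 _ (by omega) (hmul δ _ g _ hu h8 hg (Nat.findGreatest_spec
        (P := fun m => (e.symm u : X → K) ∈ W m) a.zero_le (h0 u))))
  · refine (Submodule.finrank_mono (h4 m hm)).trans (le_trans (le_of_eq ?_)
      ((finrank_span_finset_le_card (R := K) _).trans
        (card_image_le (f := fun u => (e.symm u : X → K)))))
    rw [Set.finrank, coe_image, coe_filter_univ]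

end Pool.Agent.Lib.MP_8a52c3_lc.Corp
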