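import Pool.Agent.Lib.MP_8a52c3_lc.Corp.LowDeg

namespace Pool.Agent.Lib.MP_8a52c3_lc.Corp
open Finset

theorem slice_wt_ind {l : ℕ} (S : Finset (Fin l)) :
    wt (fun i => decide (i ∈ S)) = S.card := by
  unfold wt
  congr 1
  ext i
  by_cases h : i ∈ S <;> simp [h]

theorem slice_wt_cons {l : ℕ} (a : Bool) (x : Fin l → Bool) :
    wt (Fin.cons a x : Fin (l + 1) → Bool) = (if a = true then 1 else 0) + wt x := by
  unfold wt
  rw [card_filter, card_filter, Fin.sum_univ_succ]
  simp

theorem slice_tail_mem {K : Type} [Field K] {l b : ℕ} {f : (Fin l → Bool) → K}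
    (hf : f ∈ LD K (Fin l) b) :
    (fun x : Fin (l + 1) → Bool => f (Fin.tail x)) ∈ LD K (Fin (l + 1)) b := by
  have h := LD_comp (e := 1) hf (fun v (x : Fin (l + 1) → Bool) => x v.succ)
    fun v => var_mem v.succ
  rw [mul_one] at h
  exact h

theorem slice_aux (K : Type) [Field K] (l : ℕ) : ∀ c k : ℕ, c ≤ k → c + k ≤ l →
    ∃ (ι : Type) (_ : Fintype ι) (f : ι → (Fin l → Bool) → K), Fintype.card ι = l.choose c ∧
      (∀ i, f i ∈ LD K (Fin l) c) ∧
      ∀ y : ι → K, (∀ x, wt x = k → ∑ i, y i * f i x = 0) → y = 0 := by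
  have base0 : ∀ l k : ℕ, k ≤ l →
      ∃ (ι : Type) (_ : Fintype ι) (f : ι → (Fin l → Bool) → K), Fintype.card ι = l.choose 0 ∧
      (∀ i, f i ∈ LD K (Fin l) 0) ∧
      ∀ y : ι → K, (∀ x, wt x = k → ∑ i, y i * f i x = 0) → y = 0 := by
    intro l k hk
    refine ⟨Fin 1, inferInstance, fun _ _ => 1, by simp, fun _ => const_mem _ _ _, fun y hy => ?_⟩
    obtain ⟨S, -, hS⟩ := exists_subset_card_eq (s := (univ : Finset (Fin l))) (n := k)
      (by simpa using hk)
    have h1 := hy _ ((slice_wt_ind S).trans hS)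
    funext i
    rw [Subsingleton.elim i 0]
    simpa using h1
  have base1 : ∀ l k : ℕ,
      ∃ (ι : Type) (_ : Fintype ι) (f : ι → (Fin l → Bool) → K), Fintype.card ι = l.choose k ∧
      (∀ i, f i ∈ LD K (Fin l) k) ∧
      ∀ y : ι → K, (∀ x, wt x = k → ∑ i, y i * f i x = 0) → y = 0 := by
    intro l k
    refine ⟨{S : Finset (Fin l) // S.card = k}, inferInstance, fun S => mon K S.1, by simp,
      fun S => mon_mem _ S.2.le, fun y hy => ?_⟩
    funext S
    have h1 := hy _ ((slice_wt_ind S.1).trans S.2)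
    beta_reduce at h1
    rw [sum_eq_single S] at h1
    · have h2 : mon K S.1 (fun i => decide (i ∈ S.1)) = 1 :=
        prod_eq_one fun v hv => by simp [bv, hv]
      rw [h2, mul_one] at h1
      exact h1
    · intro T _ hT
      have h3 : ¬T.1 ⊆ S.1 := fun hsub =>
        hT (Subtype.ext (eq_of_subset_of_card_le hsub (by rw [S.2, T.2])))
      obtain ⟨v, hv, hv'⟩ := not_subset.1 h3
      have h2 : mon K T.1 (fun i => decide (i ∈ S.1)) = 0 :=
        prod_eq_zero hv (by simp [bv, hv'])
      rw [h2, mul_zero]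
    · intro h2
      exact absurd (mem_univ S) h2
  induction l with
  | zero =>
    intro c k _ h
    obtain rfl : c = 0 := by omega
    exact base0 0 k (by omega)
  | succ l ih =>
    intro c k hck h
    rcases Nat.eq_zero_or_pos c with rfl | hc
    · exact base0 _ k (by omega)
    rcases hck.eq_or_lt with rfl | hck'
    · exact base1 _ _
    obtain ⟨c, rfl⟩ : ∃ c', c = c' + 1 := ⟨c - 1, by omega⟩
    obtain ⟨k, rfl⟩ : ∃ k', k = k' + 1 := ⟨k - 1, by omega⟩
    obtain ⟨ι, _, f, h1, h2, h3⟩ := ih (c + 1) k (by omega) (by omega)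
    obtain ⟨κ, _, g, k1, k2, k3⟩ := ih c (k + 1) (by omega) (by omega)
    refine ⟨ι ⊕ κ, inferInstance, Sum.elim (fun i x => f i (Fin.tail x))
      (fun j x => bv K (!x 0) * g j (Fin.tail x)), ?_, ?_, fun y hy => ?_⟩
    · rw [Fintype.card_sum, h1, k1, Nat.choose_succ_succ', add_comm]
    · rintro (i | j)
      · exact slice_tail_mem (h2 i)
      · have h4 := LD_mul (nvar_mem (K := K) (0 : Fin (l + 1))) (slice_tail_mem (k2 j))
        rw [add_comm 1 c] at h4
        exact h4
    · have a1 : (fun i => y (Sum.inl i)) = 0 := h3 _ fun x hx => by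
        have h4 := hy (Fin.cons true x) (by rw [slice_wt_cons, if_pos rfl, hx, add_comm])
        simpa [Fintype.sum_sum_type, bv] using h4
      have a2 : (fun j => y (Sum.inr j)) = 0 := k3 _ fun x hx => by
        have h4 := hy (Fin.cons false x)
          (by rw [slice_wt_cons, if_neg Bool.false_ne_true, hx, zero_add])
        have h5 : ∀ i, y (Sum.inl i) = 0 := fun i => congrFun a1 i
        simpa [Fintype.sum_sum_type, h5, bv] using h4
      funext i
      rcases i with i | j
      · exact congrFun a1 i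
      · exact congrFun a2 j

/-- Functions of degree at most `c` have rank at least `l.choose c` on the layer `k`. -/
theorem slice_rank (K : Type) [Field K] (l c k : ℕ) (hck : c ≤ k) (h : c + k ≤ l) :
    ∃ f : Fin (l.choose c) → (Fin l → Bool) → K, (∀ i, f i ∈ LD K (Fin l) c) ∧
      ∀ y : Fin (l.choose c) → K, (∀ x, wt x = k → ∑ i, y i * f i x = 0) → y = 0 := by
  obtain ⟨ι, _, f, h1, h2, h3⟩ := slice_aux K l c k hck h
  let e := Fintype.equivFinOfCardEq h1
  refine ⟨fun i => f (e.symm i), fun i => h2 _, fun y hy => ?_⟩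
  have h4 := h3 (fun i => y (e i)) fun x hx => by
    rw [← hy x hx]
    exact Fintype.sum_equiv e _ _ fun i => by simp
  funext i
  simpa using congrFun h4 (e.symm i)

end Pool.Agent.Lib.MP_8a52c3_lc.Corp
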