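import Pool.Agent.Lib.MP_8a52c3_lc.Corp.LowDeg

namespace Pool.Agent.Lib.MP_8a52c3_lc.Corp
open Finset

theorem cls_mon_eq (K : Type) [Field K] {σ : Type} [Fintype σ] [DecidableEq σ] (S : Finset σ)
    (x : σ → Bool) :
    mon K S x = if S ⊆ univ.filter (fun i => x i = true) then 1 else 0 := by
  unfold mon
  split_ifs with h
  · exact Finset.prod_eq_one (fun v hv => by simp [bv, (mem_filter.mp (h hv)).2])
  · rw [Finset.not_subset] at h
    obtain ⟨v, hv, hv'⟩ := h
    refine Finset.prod_eq_zero hv ?_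
    have h1 : ¬ x v = true := fun h => hv' (mem_filter.mpr ⟨mem_univ _, h⟩)
    simp [bv, h1]

theorem cls_choose_mem (K : Type) [Field K] (σ : Type) [Fintype σ] (t : ℕ) :
    (fun x : σ → Bool => (((wt x).choose t : ℕ) : K)) ∈ LD K σ t := by
  classical
  have h : (fun x : σ → Bool => (((wt x).choose t : ℕ) : K)) =
      ∑ S ∈ powersetCard t (univ : Finset σ), mon K S := by
    funext x
    rw [Finset.sum_apply]
    simp only [cls_mon_eq]
    rw [Finset.sum_boole]
    congr 1
    unfold wt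
    rw [← Finset.card_powersetCard]
    congr 1
    ext S
    simp only [mem_powersetCard, mem_filter, subset_univ, true_and]
    tauto
  rw [h]
  exact Submodule.sum_mem _ (fun S hS => mon_mem S (mem_powersetCard.mp hS).2.le)

theorem cls_digit {p Q r s : ℕ} (hr : r < p) (hs : s < Q) :
    r + p * s = p * Q - 1 ↔ r = p - 1 ∧ s = Q - 1 := by
  obtain ⟨Q, rfl⟩ : ∃ Q', Q = Q' + 1 := ⟨Q - 1, by omega⟩
  have e : p * (Q + 1) = p * Q + p := by ring
  rw [e, Nat.add_sub_cancel]
  constructor
  · intro h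
    have hs' : s = Q := by
      by_contra hne
      have h1 : s + 1 ≤ Q := by omega
      have h2 : p * (s + 1) ≤ p * Q := Nat.mul_le_mul_left p h1
      rw [mul_add, mul_one] at h2
      omega
    subst hs'
    exact ⟨by omega, rfl⟩
  · rintro ⟨rfl, rfl⟩
    omega

theorem cls_choose_top (K : Type) [Field K] (p : ℕ) [hp : Fact p.Prime] [CharP K p] (j : ℕ) :
    ∀ y : ℕ, ((y.choose (p ^ j - 1) : ℕ) : K) = if y % p ^ j = p ^ j - 1 then 1 else 0 := by
  have p0 : 0 < p := hp.out.pos
  induction j with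
  | zero => intro y; simp [Nat.mod_one]
  | succ j ih =>
    intro y
    have h := Choose.choose_modEq_choose_mod_mul_choose_div_nat (n := y) (k := p ^ (j + 1) - 1)
      (p := p)
    have hpos : 0 < p ^ j := pow_pos p0 j
    have e0 : p ^ (j + 1) - 1 = (p - 1) + p * (p ^ j - 1) := by
      rw [pow_succ']
      exact ((cls_digit (by omega) (by omega)).2 ⟨rfl, rfl⟩).symm
    have e1 : (p ^ (j + 1) - 1) % p = p - 1 := by
      rw [e0, Nat.add_mul_mod_self_left, Nat.mod_eq_of_lt (by omega)]
    have e2 : (p ^ (j + 1) - 1) / p = p ^ j - 1 := by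
      rw [e0, Nat.add_mul_div_left _ _ p0, Nat.div_eq_of_lt (by omega), zero_add]
    rw [e1, e2] at h
    have h' := (CharP.natCast_eq_natCast K p).mpr h
    rw [h', Nat.cast_mul, ih]
    have e3 : y % p ^ (j + 1) = y % p + p * (y / p % p ^ j) := by
      rw [pow_succ', Nat.mod_mul]
    have hlt : y / p % p ^ j < p ^ j := Nat.mod_lt _ hpos
    have hlt' : y % p < p := Nat.mod_lt _ p0
    rw [e3, pow_succ']
    simp only [cls_digit hlt' hlt]
    by_cases h0 : y % p = p - 1
    · rw [h0]; simp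
    · rw [Nat.choose_eq_zero_of_lt (by omega)]; simp [h0]

theorem cls_mod_iff (Q w k : ℕ) (hQ : 0 < Q) :
    (w + (Q - 1 - k % Q)) % Q = Q - 1 ↔ w % Q = k % Q := by
  have hk : k % Q < Q := Nat.mod_lt _ hQ
  have hw : w % Q < Q := Nat.mod_lt _ hQ
  rw [← Nat.mod_add_mod]
  by_cases h : w % Q + (Q - 1 - k % Q) < Q
  · rw [Nat.mod_eq_of_lt h]; omega
  · rw [Nat.mod_eq_sub_mod (by omega), Nat.mod_eq_of_lt (by omega)]; omega

/-- The indicator of a weight class modulo a power of the characteristic has low degree. -/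
theorem class_mem (K : Type) [Field K] (p : ℕ) [Fact p.Prime] [CharP K p] (σ : Type) [Fintype σ]
    (j k : ℕ) :
    (fun x : σ → Bool => if wt x % p ^ j = k % p ^ j then (1 : K) else 0)
      ∈ LD K σ (p ^ j - 1) := by
  have hpos : 0 < p ^ j := pow_pos (Fact.out : p.Prime).pos j
  set c := p ^ j - 1 - k % p ^ j with hc
  have h : (fun x : σ → Bool => if wt x % p ^ j = k % p ^ j then (1 : K) else 0) =
      ∑ ij ∈ antidiagonal (p ^ j - 1),
        ((c.choose ij.2 : ℕ) : K) • (fun x : σ → Bool => (((wt x).choose ij.1 : ℕ) : K)) := by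
    funext x
    have h1 := cls_choose_top K p j (wt x + c)
    simp only [hc, cls_mod_iff _ _ _ hpos] at h1
    rw [← h1, Nat.add_choose_eq, Finset.sum_apply, Nat.cast_sum]
    refine Finset.sum_congr rfl (fun ij _ => ?_)
    simp only [Pi.smul_apply, smul_eq_mul, Nat.cast_mul]
    ring
  rw [h]
  refine Submodule.sum_mem _ (fun ij hij => Submodule.smul_mem _ _ ?_)
  have hle : ij.1 ≤ p ^ j - 1 := by
    have := mem_antidiagonal.mp hij; omega
  exact LD_mono hle (cls_choose_mem K σ ij.1)

end Pool.Agent.Lib.MP_8a52c3_lc.Corp
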