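import Pool.Agent.Lib.MP_8a52c3_lc.Corp.Defs

namespace Pool.Agent.Lib.MP_8a52c3_lc.Corp
open Finset

section
variable (K : Type) [Field K] (G : Type) [AddCommGroup G]

/-- Translations acting on functions. -/
def shiftHom : Multiplicative G →* Module.End K (G → K) where
  toFun g := LinearMap.funLeft K K (fun s => s + g.toAdd)
  map_one' := by ext φ s; simp
  map_mul' a b := by ext φ s; simp [add_assoc]

/-- The group algebra acting on functions. -/
noncomputable def rho : AddMonoidAlgebra K G →ₐ[K] Module.End K (G → K) :=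
  AddMonoidAlgebra.lift K _ G (shiftHom K G)

variable {G}

/-- The difference operator in the direction `g`. -/
noncomputable def DD (g : G) : AddMonoidAlgebra K G := 1 - AddMonoidAlgebra.single g 1

variable {K}

theorem rho_DD (g : G) (φ : G → K) (s : G) : rho K G (DD K g) φ s = φ s - φ (s + g) := by
  simp [rho, DD, shiftHom]

theorem DD_pow (p : ℕ) [Fact p.Prime] [CharP K p] (g : G) (hg : p • g = 0) : DD K g ^ p = 0 := by
  have : CharP (AddMonoidAlgebra K G) p :=
    charP_of_injective_algebraMap (algebraMap K (AddMonoidAlgebra K G)).injective p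
  rw [DD, sub_pow_char, one_pow, AddMonoidAlgebra.single_pow, hg, one_pow,
    ← AddMonoidAlgebra.one_def, sub_self]

theorem rho_comm {κ : Type} [Fintype κ] (δ : κ → G) (m : κ → ℕ) (e : G → K)
    (he : ∀ i, m i ≠ 0 → ∀ s, e (s + δ i) = e s) (φ : G → K) :
    rho K G (∏ i, DD K (δ i) ^ m i) (e * φ) = e * rho K G (∏ i, DD K (δ i) ^ m i) φ := by
  revert φ
  refine Finset.prod_induction _ (fun a => ∀ φ, rho K G a (e * φ) = e * rho K G a φ) ?_ ?_ ?_
  · intro a b ha hb φ
    rw [map_mul (rho K G), Module.End.mul_apply, Module.End.mul_apply, hb, ha]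
  · intro φ; simp
  · intro i _
    by_cases h0 : m i = 0
    · intro φ; simp [h0]
    · generalize m i = r
      induction r with
      | zero => intro φ; simp
      | succ r ih =>
        intro φ
        have : rho K G (DD K (δ i)) (e * φ) = e * rho K G (DD K (δ i)) φ := by
          funext s
          simp only [rho_DD, Pi.mul_apply, he i h0, mul_sub]
        rw [pow_succ, map_mul (rho K G), Module.End.mul_apply, Module.End.mul_apply, this, ih]

end

section
variable {K : Type} [Field K] (p : ℕ) [Fact p.Prime] [CharP K p]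
  {κ ι : Type} [Fintype κ] [DecidableEq κ] [Fintype ι]

/-- The mixed difference operator of a multi-index. -/
noncomputable def NN (K : Type) [Field K] (p : ℕ) {κ : Type} [Fintype κ] [DecidableEq κ]
    (m : κ → ℕ) : AddMonoidAlgebra K (κ → ZMod p) :=
  ∏ i, DD K (Pi.single i 1 : κ → ZMod p) ^ m i

omit [CharP K p] in
theorem NN_add (m m' : κ → ℕ) : NN K p (m + m') = NN K p m * NN K p m' := by
  simp [NN, pow_add, Finset.prod_mul_distrib]

omit [CharP K p] in
theorem NN_single (j : κ) : NN K p (Pi.single j 1) = DD K (Pi.single j 1 : κ → ZMod p) := by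
  unfold NN
  rw [Finset.prod_eq_single j]
  · simp
  · intro i _ hi; simp [hi]
  · simp

theorem NN_zero {m : κ → ℕ} {j : κ} (h : p ≤ m j) : NN K p m = 0 := by
  refine Finset.prod_eq_zero (Finset.mem_univ j) ?_
  refine pow_eq_zero_of_le h (DD_pow p _ ?_)
  funext i
  simp

/-- Total excess depth. -/
def xi (μ : ι → ℕ) (D : ℕ) (u : κ → ι) : ℕ := ∑ i, (μ (u i) - D)

/-- The potential. -/
def ph (μ : ι → ℕ) (d : ℕ) (u : κ → ι) (m : κ → ℕ) : ℕ := ∑ i, min (μ (u i) - d) (2 * d * m i)

open Classical in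
/-- Shift the label in a deep block of `u`. -/
noncomputable def Tw (K : Type) [Field K] (p : ℕ) {κ ι : Type} [DecidableEq κ] (μ : ι → ℕ) (D : ℕ) :
    ((κ → ZMod p) → (κ → ι) → K) →ₗ[K] ((κ → ZMod p) → (κ → ι) → K) where
  toFun lam := fun s u =>
    if h : ∃ i, D ≤ μ (u i) then lam (s + Pi.single h.choose 1) u else 0
  map_add' a b := by
    funext s u
    by_cases h : ∃ i, D ≤ μ (u i) <;> simp [h]
  map_smul' c a := by
    funext s u
    by_cases h : ∃ i, D ≤ μ (u i) <;> simp [h]

omit [Fintype ι] [DecidableEq κ] [Fact p.Prime] in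
theorem ph_le (μ : ι → ℕ) (d : ℕ) (u : κ → ι) (m : κ → ℕ) (hm : ∀ i, m i < p) :
    ph μ d u m ≤ 2 * p * d * Fintype.card κ := by
  unfold ph
  calc _ ≤ ∑ _i : κ, 2 * d * p := Finset.sum_le_sum fun i _ =>
        (min_le_right _ _).trans (Nat.mul_le_mul_left _ (hm i).le)
    _ = _ := by simp; ring

theorem core_key (μ : ι → ℕ) (d : ℕ) (hd : 1 ≤ d)
    (E : (κ → ZMod p) → Matrix (κ → ι) (κ → ι) K)
    (hA : ∀ s u u', E s u u' ≠ 0 → ∑ i, (μ (u i) - μ (u' i)) ≤ d)
    (hB : ∀ s t u, (∀ i, μ (u i) < d → s i = t i) → E s u = E t u)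
    (lam : (κ → ZMod p) → (κ → ι) → K)
    (hl : ∀ s, lam s = (E s).mulVec (lam s - Tw K p μ (2 * p * d) lam s)) (r : ℕ) :
    ∀ (u : κ → ι) (m : κ → ℕ), 2 * p * d * Fintype.card κ < ph μ d u m + r →
      2 * p * d * Fintype.card κ + d < xi μ (2 * p * d) u + ph μ d u m →
      rho K _ (NN K p m) (fun t => lam t u) = 0 := by
  induction r with
  | zero =>
    intro u m h _
    by_cases hm : ∀ i, m i < p
    · have := ph_le p μ d u m hm; omega
    · push Not at hm
      obtain ⟨j, hj⟩ := hm
      simp [NN_zero p hj]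
  | succ r ih =>
    intro u m h1 h2
    by_cases hm : ¬ ∀ i, m i < p
    · push Not at hm
      obtain ⟨j, hj⟩ := hm
      simp [NN_zero p hj]
    rw [not_not] at hm
    obtain ⟨m', hph, hdeep, hlt, m'', hsum⟩ : ∃ m' : κ → ℕ, ph μ d u m' = ph μ d u m ∧
        (∀ i, m' i ≠ 0 → d ≤ μ (u i)) ∧ (∀ i, m' i < p) ∧ ∃ m'', m = m'' + m' := by
      refine ⟨fun i => if d ≤ μ (u i) then m i else 0, ?_, ?_, ?_,
        fun i => if d ≤ μ (u i) then 0 else m i, ?_⟩
      · refine Finset.sum_congr rfl fun i _ => ?_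
        beta_reduce
        split_ifs with h
        · rfl
        · have : μ (u i) - d = 0 := by omega
          simp [this]
      · intro i hi
        by_contra hc
        simp [hc] at hi
      · intro i
        have := hm i
        beta_reduce
        split_ifs <;> omega
      · funext i
        simp only [Pi.add_apply]
        split_ifs <;> simp
    suffices h : rho K _ (NN K p m') (fun t => lam t u) = 0 by
      rw [hsum, NN_add, map_mul, Module.End.mul_apply, h, map_zero]
    rw [← hph] at h1 h2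
    have hexp : (fun t => lam t u) = ∑ u', (fun t => E t u u') *
        (fun t => lam t u' - Tw K p μ (2 * p * d) lam t u') := by
      funext t
      conv_lhs => rw [hl t]
      simp [Matrix.mulVec, dotProduct, Finset.sum_apply]
    rw [hexp, map_sum]
    refine Finset.sum_eq_zero fun u' _ => ?_
    unfold NN
    rw [rho_comm _ _ _ (fun i hi s => congrFun (hB _ _ _ fun i' hi' => by
      have : i' ≠ i := by rintro rfl; have := hdeep _ hi; omega
      simp [this]) u')]
    funext s
    rw [Pi.mul_apply, Pi.zero_apply]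
    by_cases h0 : E s u u' = 0
    · rw [h0, zero_mul]
    have hs := hA s u u' h0
    have hxi : xi μ (2 * p * d) u ≤ xi μ (2 * p * d) u' + d := by
      unfold xi
      calc _ ≤ ∑ i, ((μ (u' i) - 2 * p * d) + (μ (u i) - μ (u' i))) :=
            Finset.sum_le_sum fun i _ => by omega
        _ ≤ _ := by rw [Finset.sum_add_distrib]; omega
    have hp : ph μ d u m' ≤ ph μ d u' m' + d := by
      unfold ph
      calc _ ≤ ∑ i, (min (μ (u' i) - d) (2 * d * m' i) + (μ (u i) - μ (u' i))) :=
            Finset.sum_le_sum fun i _ => by omega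
        _ ≤ _ := by rw [Finset.sum_add_distrib]; omega
    have hb := ph_le p μ d u m' hlt
    have hex : ∃ i, 2 * p * d ≤ μ (u' i) := by
      by_contra hc
      push Not at hc
      have : xi μ (2 * p * d) u' = 0 := Finset.sum_eq_zero fun i _ => by have := hc i; omega
      omega
    have hj := hex.choose_spec
    have hT : (fun t => lam t u' - Tw K p μ (2 * p * d) lam t u')
        = rho K _ (NN K p (Pi.single hex.choose 1)) (fun t => lam t u') := by
      funext t
      rw [NN_single, rho_DD]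
      simp only [Tw, LinearMap.coe_mk, AddHom.coe_mk, dif_pos hex]
    rw [hT]
    generalize hex.choose = j at hj
    change E s u u' * rho K _ (NN K p m') _ s = 0
    rw [← Module.End.mul_apply, ← map_mul, ← NN_add]
    by_cases hjp : p ≤ (m' + Pi.single j 1 : κ → ℕ) j
    · simp [NN_zero p hjp]
    · have hins : ph μ d u' m' + 2 * d ≤ ph μ d u' (m' + Pi.single j 1) := by
        unfold ph
        have : ∑ i, (if i = j then 2 * d else 0) = 2 * d := by simp
        rw [← this, ← Finset.sum_add_distrib, this]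
        refine Finset.sum_le_sum fun i _ => ?_
        by_cases hi : i = j
        · subst hi
          simp only [Pi.add_apply, Pi.single_eq_same, if_true, not_le] at hjp ⊢
          have h3 : 2 * d * (m' i + 1 + 1) ≤ 2 * p * d := by
            calc _ ≤ 2 * d * p := Nat.mul_le_mul_left _ hjp
              _ = _ := by ring
          simp only [mul_add, mul_one] at h3 ⊢
          omega
        · simp [hi]
      rw [ih u' _ (by omega) (by omega), Pi.zero_apply, mul_zero]

theorem core_dim (μ : ι → ℕ) (d : ℕ) (hd : 1 ≤ d)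
    (E : (κ → ZMod p) → Matrix (κ → ι) (κ → ι) K)
    (hE : ∀ s, E s * E s = E s)
    (hA : ∀ s u u', E s u u' ≠ 0 → ∑ i, (μ (u i) - μ (u' i)) ≤ d)
    (hB : ∀ s t u, (∀ i, μ (u i) < d → s i = t i) → E s u = E t u) (ε : ZMod p) :
    ∑ s : κ → ZMod p, (if ∑ i, s i = ε + 1 then (E s).rank else 0)
      ≤ ∑ s : κ → ZMod p, (if ∑ i, s i = ε then (E s).rank else 0)
        + p ^ Fintype.card κ *
          (univ.filter fun u : κ → ι =>
            xi μ (2 * p * d) u ≤ 2 * p * d * Fintype.card κ + d).card := by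
  let W : ZMod p → (κ → ZMod p) → Submodule K ((κ → ι) → K) := fun a s =>
    if ∑ i, s i = a then LinearMap.range (E s).mulVecLin else ⊥
  let incl : (∀ s, W (ε + 1) s) →ₗ[K] ((κ → ZMod p) → (κ → ι) → K) :=
    LinearMap.pi fun s => (W (ε + 1) s).subtype ∘ₗ LinearMap.proj s
  let Φ1 : (∀ s, W (ε + 1) s) →ₗ[K] (∀ s, W ε s) := LinearMap.pi fun t =>
    LinearMap.codRestrict (W ε t)
      ((if ∑ i, t i = ε then (E t).mulVecLin else 0) ∘ₗ LinearMap.proj t ∘ₗ
        Tw K p μ (2 * p * d) ∘ₗ incl)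
      (by
        intro x
        by_cases h : ∑ i, t i = ε
        · simp only [W, h, if_true]
          exact ⟨_, rfl⟩
        · simp [W, h])
  let Bad := {u : κ → ι // xi μ (2 * p * d) u ≤ 2 * p * d * Fintype.card κ + d}
  let Φ2 : (∀ s, W (ε + 1) s) →ₗ[K] ((κ → ZMod p) → Bad → K) :=
    LinearMap.pi fun s => LinearMap.pi fun u => LinearMap.proj u.1 ∘ₗ LinearMap.proj s ∘ₗ incl
  have hinj : Function.Injective (Φ1.prod Φ2) := by
    rw [injective_iff_map_eq_zero]
    intro x hx
    have h1 : Φ1 x = 0 := congrArg Prod.fst hx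
    have h2 : Φ2 x = 0 := congrArg Prod.snd hx
    have hodd : ∀ s, ∑ i, s i ≠ ε + 1 → incl x s = 0 := by
      intro s hs
      have hm : (x s : (κ → ι) → K) ∈ W (ε + 1) s := (x s).2
      simp only [W, hs, if_false] at hm
      exact (Submodule.mem_bot K).1 hm
    have hT : ∀ s, ∑ i, s i ≠ ε → Tw K p μ (2 * p * d) (incl x) s = 0 := by
      intro s hs
      funext u
      simp only [Tw, LinearMap.coe_mk, AddHom.coe_mk, Pi.zero_apply]
      split_ifs with h
      · rw [hodd]; · rfl
        simp only [Pi.add_apply, Finset.sum_add_distrib]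
        simpa using hs
      · rfl
    have hl : ∀ s, incl x s = (E s).mulVec (incl x s - Tw K p μ (2 * p * d) (incl x) s) := by
      intro s
      by_cases hs : ∑ i, s i = ε + 1
      · have hm : (x s : (κ → ι) → K) ∈ W (ε + 1) s := (x s).2
        simp only [W, hs, if_true] at hm
        obtain ⟨y, hy⟩ := hm
        have : incl x s = (E s).mulVec y := hy.symm
        rw [hT s (by rw [hs]; simp), sub_zero, this, Matrix.mulVec_mulVec, hE]
      · by_cases hs' : ∑ i, s i = ε
        · have h3 : ((Φ1 x s : W ε s) : (κ → ι) → K) = 0 := by rw [h1]; rfl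
          have h4 : (E s).mulVec (Tw K p μ (2 * p * d) (incl x) s) = 0 := by
            simpa [Φ1, hs'] using h3
          rw [hodd s hs, zero_sub, Matrix.mulVec_neg, h4, neg_zero]
        · rw [hodd s hs, hT s hs', sub_zero, Matrix.mulVec_zero]
    funext s
    apply Subtype.ext
    funext u
    change incl x s u = 0
    by_cases hu : xi μ (2 * p * d) u ≤ 2 * p * d * Fintype.card κ + d
    · exact congrFun (congrFun h2 s) ⟨u, hu⟩
    · have := core_key p μ d hd E hA hB (incl x) hl (2 * p * d * Fintype.card κ + 1) u 0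
        (by omega) (by omega)
      have h5 : NN K p (0 : κ → ℕ) = 1 := by simp [NN]
      rw [h5, map_one] at this
      exact congrFun this s
  have hle := LinearMap.finrank_le_finrank_of_injective hinj
  rw [Module.finrank_prod, Module.finrank_pi_fintype, Module.finrank_pi_fintype,
    Module.finrank_pi_fintype] at hle
  have e1 : ∀ a s, Module.finrank K (W a s) = if ∑ i, s i = a then (E s).rank else 0 := by
    intro a s
    by_cases hs : ∑ i, s i = a
    · have : W a s = LinearMap.range (E s).mulVecLin := by simp only [W, hs, if_true]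
      rw [this, if_pos hs]; rfl
    · have : W a s = ⊥ := by simp only [W, hs, if_false]
      rw [this, if_neg hs, finrank_bot]
  simp only [e1] at hle
  refine hle.trans (le_of_eq ?_)
  congr 1
  simp [Bad, Fintype.card_subtype]

omit [Fact p.Prime] in
theorem core_bad (μ : ι → ℕ) (d : ℕ) (hd : 1 ≤ d) :
    ((univ.filter fun u : κ → ι =>
      xi μ (2 * p * d) u ≤ 2 * p * d * Fintype.card κ + d).card : ℝ)
      ≤ 2 * (4 ^ p * GG μ p d) ^ Fintype.card κ := by
  have h1 : (GG μ p d) ^ Fintype.card κ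
      = ∑ u : κ → ι, ∏ i, (1 / 2 : ℝ) ^ ((μ (u i) - 2 * p * d) / d) := by
    have := Finset.prod_univ_sum (fun _ : κ => (univ : Finset ι))
      (fun _ v => (1 / 2 : ℝ) ^ ((μ v - 2 * p * d) / d))
    simpa [GG] using this
  rw [mul_pow, h1, ← mul_assoc, Finset.mul_sum, Finset.card_eq_sum_ones, Nat.cast_sum,
    Finset.sum_filter]
  refine Finset.sum_le_sum fun u _ => ?_
  split_ifs with hu
  · rw [Finset.prod_pow_eq_pow_sum]
    have h2 : ∑ i, (μ (u i) - 2 * p * d) / d ≤ 2 * (p * Fintype.card κ) + 1 := by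
      have h3 : d * ∑ i, (μ (u i) - 2 * p * d) / d ≤ xi μ (2 * p * d) u := by
        rw [Finset.mul_sum]
        exact Finset.sum_le_sum fun i _ => Nat.mul_div_le _ _
      have h4 : d * ∑ i, (μ (u i) - 2 * p * d) / d ≤ d * (2 * (p * Fintype.card κ) + 1) := by
        calc _ ≤ _ := h3.trans hu
          _ = _ := by ring
      exact Nat.le_of_mul_le_mul_left h4 hd
    have h5 : (1 / 2 : ℝ) ^ (2 * (p * Fintype.card κ) + 1)
        ≤ (1 / 2 : ℝ) ^ ∑ i, (μ (u i) - 2 * p * d) / d :=
      pow_le_pow_of_le_one (by norm_num) (by norm_num) h2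
    have h6 : (2 : ℝ) * (4 ^ p) ^ Fintype.card κ
        * (1 / 2 : ℝ) ^ (2 * (p * Fintype.card κ) + 1) = 1 := by
      rw [pow_succ, pow_mul, ← pow_mul (4 : ℝ)]
      have : (4 : ℝ) ^ (p * Fintype.card κ) * ((1 / 2 : ℝ) ^ 2) ^ (p * Fintype.card κ) = 1 := by
        rw [← mul_pow]; norm_num
      linear_combination this
    have h7 : (0 : ℝ) ≤ 2 * (4 ^ p) ^ Fintype.card κ := by positivity
    push_cast
    calc (1 : ℝ) = _ := h6.symm
      _ ≤ _ := mul_le_mul_of_nonneg_left h5 h7
  · positivity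

end

theorem core_cyc (p : ℕ) [Fact p.Prime] (A : ZMod p → ℕ) (B : ℕ) (h : ∀ a, A (a + 1) ≤ A a + B) :
    ‖∑ a, (ZMod.stdAddChar a : ℂ) * (A a : ℂ)‖ ≤ p ^ 2 * B := by
  have h1 : ∀ (r : ℕ) a, A (a + r) ≤ A a + r * B := by
    intro r a
    induction r with
    | zero => simp
    | succ r ih =>
      have := h (a + r)
      push_cast
      rw [← add_assoc, add_mul]
      omega
  have h2 : ∀ a b, A a ≤ A b + p * B := by
    intro a b
    have h3 := h1 (a - b).val b
    have h4 : (a - b).val * B ≤ p * B := Nat.mul_le_mul_right _ (ZMod.val_lt _).le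
    rw [ZMod.natCast_zmod_val, add_sub_cancel] at h3
    omega
  have h0 : ∑ a : ZMod p, (ZMod.stdAddChar a : ℂ) = 0 := by
    refine AddChar.sum_eq_zero_of_ne_one fun hc => ?_
    have := ZMod.isPrimitive_stdAddChar p (a := 1) one_ne_zero
    rw [AddChar.mulShift_one] at this
    exact this hc
  have h5 : ∑ a, (ZMod.stdAddChar a : ℂ) * (A a : ℂ)
      = ∑ a, (ZMod.stdAddChar a : ℂ) * (((A a : ℝ) - (A 0 : ℝ) : ℝ) : ℂ) := by
    push_cast
    simp only [mul_sub, Finset.sum_sub_distrib, ← Finset.sum_mul, h0, zero_mul, sub_zero]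
  rw [h5]
  calc _ ≤ ∑ a : ZMod p, ‖(ZMod.stdAddChar a : ℂ) * (((A a : ℝ) - (A 0 : ℝ) : ℝ) : ℂ)‖ :=
        norm_sum_le _ _
    _ ≤ ∑ _a : ZMod p, (p : ℝ) * B := by
        refine Finset.sum_le_sum fun a _ => ?_
        rw [norm_mul, Complex.norm_real, Real.norm_eq_abs]
        have h6 : ‖(ZMod.stdAddChar a : ℂ)‖ = 1 := by simp [ZMod.stdAddChar_apply]
        have h7 : (A a : ℝ) ≤ A 0 + p * B := by exact_mod_cast h2 a 0
        have h8 : (A 0 : ℝ) ≤ A a + p * B := by exact_mod_cast h2 0 a
        rw [h6, one_mul, abs_le]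
        constructor <;> linarith
    _ = _ := by simp; ring

theorem core_char (p : ℕ) [Fact p.Prime] {κ : Type} [Fintype κ] [DecidableEq κ]
    (f : (κ → Bool) → ℂ) :
    ∑ s : κ → ZMod p, (ZMod.stdAddChar (∑ i, s i) : ℂ) * f (fun i => decide (s i ≠ 0))
      = ∑ t : κ → Bool, ((∏ i, sg (t i) : ℤ) : ℂ) * f t := by
  have h0 : ∑ a : ZMod p, (ZMod.stdAddChar a : ℂ) = 0 := by
    refine AddChar.sum_eq_zero_of_ne_one fun hc => ?_
    have := ZMod.isPrimitive_stdAddChar p (a := 1) one_ne_zero
    rw [AddChar.mulShift_one] at this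
    exact this hc
  have h1 : ∀ b : Bool, ((sg b : ℤ) : ℂ)
      = ∑ a : ZMod p, if decide (a ≠ 0) = b then (ZMod.stdAddChar a : ℂ) else 0 := by
    intro b
    cases b
    · simp [sg]
    · rw [← Finset.add_sum_erase _ _ (Finset.mem_univ 0)] at h0
      rw [← Finset.sum_filter]
      have : univ.filter (fun a : ZMod p => decide (a ≠ 0) = true) = univ.erase 0 := by
        ext a; simp
      rw [this]
      simp only [AddChar.map_zero_eq_one] at h0
      simp only [sg, if_true]
      push_cast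
      linear_combination -h0
  have h2 : ∀ s : κ → ZMod p,
      (ZMod.stdAddChar (∑ i, s i) : ℂ) = ∏ i, (ZMod.stdAddChar (s i) : ℂ) := by
    intro s
    induction (univ : Finset κ) using Finset.induction_on with
    | empty => simp
    | insert j I hj ih =>
      rw [Finset.prod_insert hj, Finset.sum_insert hj, AddChar.map_add_eq_mul, ih]
  simp only [Int.cast_prod, h1, h2]
  simp only [Finset.prod_univ_sum, Fintype.piFinset_univ, Finset.sum_mul]
  rw [Finset.sum_comm]
  refine Finset.sum_congr rfl fun s _ => ?_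
  rw [Finset.sum_eq_single (fun i => decide (s i ≠ 0))]
  · simp
  · intro t _ ht
    obtain ⟨i, hi⟩ := Function.ne_iff.1 ht
    rw [Finset.prod_eq_zero (Finset.mem_univ i) (if_neg (Ne.symm hi)), zero_mul]
  · simp

theorem core_bound {K : Type} [Field K] (p : ℕ) [Fact p.Prime] [CharP K p]
    {κ ι : Type} [Fintype κ] [DecidableEq κ] [Fintype ι] [DecidableEq ι]
    (μ : ι → ℕ) (d : ℕ) (hd : 1 ≤ d) (E : (κ → Bool) → Matrix (κ → ι) (κ → ι) K)
    (hE : ∀ s, E s * E s = E s)
    (hA : ∀ s u u', E s u u' ≠ 0 → ∑ i, (μ (u i) - μ (u' i)) ≤ d)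
    (hB : ∀ s t u, (∀ i, μ (u i) < d → s i = t i) → E s u = E t u) :
    |∑ s : κ → Bool, ((∏ i, sg (s i) : ℤ) : ℝ) * ((E s).rank : ℝ)|
      ≤ 2 * p ^ 2 * (KK p * GG μ p d) ^ Fintype.card κ := by
  have h0 := core_dim p μ d hd (fun s => E (fun i => decide (s i ≠ 0))) (fun s => hE _)
    (fun s => hA _) (fun s t u h => hB _ _ u fun i hi => by rw [h i hi])
  have hb := core_bad p (κ := κ) μ d hd
  generalize (univ.filter fun u : κ → ι =>
    xi μ (2 * p * d) u ≤ 2 * p * d * Fintype.card κ + d).card = B at h0 hb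
  have h1 := core_cyc p (fun a => ∑ s : κ → ZMod p,
      (if ∑ i, s i = a then (E (fun i => decide (s i ≠ 0))).rank else 0)) _ h0
  have h2 := core_char p (fun t => ((E t).rank : ℂ))
  have h3 : ∑ a : ZMod p, (ZMod.stdAddChar a : ℂ) * ((∑ s : κ → ZMod p,
      (if ∑ i, s i = a then (E (fun i => decide (s i ≠ 0))).rank else 0) : ℕ) : ℂ)
      = ∑ s : κ → ZMod p, (ZMod.stdAddChar (∑ i, s i) : ℂ) *
        ((E (fun i => decide (s i ≠ 0))).rank : ℂ) := by
    push_cast
    simp only [Finset.mul_sum]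
    rw [Finset.sum_comm]
    refine Finset.sum_congr rfl fun s _ => ?_
    simp
  rw [h3, h2] at h1
  have h4 : ∑ t : κ → Bool, ((∏ i, sg (t i) : ℤ) : ℂ) * ((E t).rank : ℂ)
      = ((∑ s : κ → Bool, ((∏ i, sg (s i) : ℤ) : ℝ) * ((E s).rank : ℝ) : ℝ) : ℂ) := by
    push_cast; rfl
  rw [h4, Complex.norm_real, Real.norm_eq_abs] at h1
  refine h1.trans ?_
  have h5 : (KK p * GG μ p d) ^ Fintype.card κ
      = (p : ℝ) ^ Fintype.card κ * (4 ^ p * GG μ p d) ^ Fintype.card κ := by
    rw [← mul_pow, KK, mul_assoc]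
  rw [h5]
  push_cast
  have h6 : (0 : ℝ) ≤ (p : ℝ) ^ 2 * p ^ Fintype.card κ := by positivity
  nlinarith [mul_le_mul_of_nonneg_left hb h6]

end Pool.Agent.Lib.MP_8a52c3_lc.Corp
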