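import Mathlib

/-! Definitions for the correlation bound MOD q versus polynomials in characteristic p. -/

namespace Pool.Agent.Lib.MP_8a52c3_lc.Corp
open Finset

/-- Hamming weight. -/
def wt {σ : Type} [Fintype σ] (x : σ → Bool) : ℕ := (univ.filter (fun i => x i = true)).card

/-- A bit as a field element. -/
def bv (K : Type) [Field K] (b : Bool) : K := if b = true then 1 else 0

/-- The monomial function of a set of variables. -/
def mon (K : Type) [Field K] {σ : Type} (S : Finset σ) (x : σ → Bool) : K := ∏ v ∈ S, bv K (x v)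

/-- Functions on the cube of degree at most `b`. -/
def LD (K : Type) [Field K] (σ : Type) (b : ℕ) : Submodule K ((σ → Bool) → K) :=
  Submodule.span K {f | ∃ S : Finset σ, S.card ≤ b ∧ f = mon K S}

/-- Degree at most `d` functions on a product of blocks. -/
def TD {K : Type} [Field K] (κ : Type) [Fintype κ] {X : Type} (D : ℕ → Submodule K (X → K))
    (d : ℕ) : Submodule K ((κ → X) → K) :=
  Submodule.span K {f | ∃ (δ : κ → ℕ) (g : κ → X → K), ∑ i, δ i ≤ d ∧ (∀ i, g i ∈ D (δ i)) ∧
    f = fun x => ∏ i, g i (x i)}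

/-- Sign of a label. -/
def sg (b : Bool) : ℤ := if b = true then -1 else 1

/-- A family of functions `v u` with depths `μ u` and two information sets. -/
structure Pairing {K : Type} [Field K] (X : Type) (D : ℕ → Submodule K (X → K)) where
  n : ℕ
  μ : Fin n → ℕ
  v : Fin n → X → K
  β : Bool → Fin n → X
  inj : ∀ b, Function.Injective (β b)
  info : ∀ (b : Bool) (y : Fin n → K), (∀ u', ∑ u, y u * v u (β b u') = 0) → y = 0
  mul : ∀ (δ : ℕ) (g : X → K), g ∈ D δ → ∀ u, δ ≤ μ u →
    g * v u ∈ Submodule.span K (v '' {u' | μ u ≤ μ u' + δ})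

/-- Signed indicator of the two information sets. -/
def Pairing.h {K : Type} [Field K] {X : Type} [DecidableEq X] {D : ℕ → Submodule K (X → K)}
    (P : Pairing X D) (x : X) : ℤ :=
  ∑ b : Bool, ∑ u : Fin P.n, if P.β b u = x then sg b else 0

/-- The weighted number of shallow indices. -/
noncomputable def GG {ι : Type} [Fintype ι] (μ : ι → ℕ) (p d : ℕ) : ℝ :=
  ∑ u : ι, (1 / 2 : ℝ) ^ ((μ u - 2 * p * d) / d)

/-- The loss per block. -/
def KK (p : ℕ) : ℝ := p * 4 ^ p

end Pool.Agent.Lib.MP_8a52c3_lc.Corp
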