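import Pool.Agent.Lib.MP_8a52c3_lc.Corp.Tensor

namespace Pool.Agent.Lib.MP_8a52c3_lc.Corp
open Finset

variable {K : Type} [Field K]

theorem expand_restrict {κ X : Type} [Fintype κ] [DecidableEq κ]
    {D : ℕ → Submodule K (X → K)} {d : ℕ} {p : (κ → X) → K} (hp : p ∈ TD κ D d)
    (T : Finset κ) (w : {i // ¬ i ∈ T} → X) :
    (fun y : {i // i ∈ T} → X =>
      p ((Equiv.piEquivPiSubtypeProd (fun i => i ∈ T) (fun _ => X)).symm (y, w)))
      ∈ TD {i // i ∈ T} D d := by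
  unfold TD at hp
  induction hp using Submodule.span_induction with
  | mem f hf =>
    obtain ⟨δ, g, hδ, hg, rfl⟩ := hf
    have h1 : (fun y : {i // i ∈ T} → X => ∏ i : {i // i ∈ T}, g i (y i)) ∈
        TD {i // i ∈ T} D d := by
      refine Submodule.subset_span ⟨fun i => δ i, fun i => g i, ?_, fun i => hg i, rfl⟩
      refine le_trans ?_ hδ
      rw [Finset.sum_coe_sort T δ]
      exact Finset.sum_le_sum_of_subset (Finset.subset_univ _)
    have h2 := Submodule.smul_mem _ (∏ i : {i // ¬ i ∈ T}, g i (w i)) h1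
    convert h2 using 1
    funext y
    simp only [Pi.smul_apply, smul_eq_mul]
    rw [← Finset.prod_sdiff (Finset.subset_univ T),
      Finset.prod_subtype (univ \ T) (p := fun i => ¬ i ∈ T) (fun _ => by simp),
      Finset.prod_subtype T (p := fun i => i ∈ T) (fun _ => Iff.rfl)]
    congr 1
    · refine Finset.prod_congr rfl fun i _ => ?_
      simp [Equiv.piEquivPiSubtypeProd, i.2]
    · refine Finset.prod_congr rfl fun i _ => ?_
      simp [Equiv.piEquivPiSubtypeProd, i.2]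
  | zero => exact Submodule.zero_mem _
  | add f g _ _ hf hg => exact Submodule.add_mem _ hf hg
  | smul a f _ hf => exact Submodule.smul_mem _ a hf

theorem expand_prod_h {τ X : Type} [Fintype τ] [DecidableEq τ] [DecidableEq X]
    {D : ℕ → Submodule K (X → K)} (P : Pairing X D) (y : τ → X) :
    ∏ i, P.h (y i) = ∑ s : τ → Bool, ∑ u : τ → Fin P.n,
      if (fun i => P.β (s i) (u i)) = y then ∏ i, sg (s i) else 0 := by
  unfold Pairing.h
  rw [Finset.prod_univ_sum, Fintype.piFinset_univ]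
  refine Finset.sum_congr rfl fun s _ => ?_
  rw [Finset.prod_univ_sum, Fintype.piFinset_univ]
  refine Finset.sum_congr rfl fun u _ => ?_
  rw [Fintype.prod_ite_zero]
  simp only [funext_iff]

theorem expand_sum_h {τ X : Type} [Fintype τ] [DecidableEq τ] [Fintype X] [DecidableEq X]
    {D : ℕ → Submodule K (X → K)} (P : Pairing X D) (q : (τ → X) → Bool) :
    ∑ y : τ → X, bv ℂ (q y) * ∏ i, (P.h (y i) : ℂ)
      = ((∑ s : τ → Bool, ∑ u : τ → Fin P.n,
        ((∏ i, sg (s i) : ℤ) : ℝ) * bv ℝ (q (fun i => P.β (s i) (u i))) : ℝ) : ℂ) := by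
  have h1 : ∀ y : τ → X, bv ℂ (q y) * ∏ i, (P.h (y i) : ℂ) =
      ∑ s : τ → Bool, ∑ u : τ → Fin P.n,
        if (fun i => P.β (s i) (u i)) = y then ((∏ i, sg (s i) : ℤ) : ℂ) * bv ℂ (q y) else 0 := by
    intro y
    rw [← Int.cast_prod, expand_prod_h P y, Int.cast_sum, Finset.mul_sum]
    refine Finset.sum_congr rfl fun s _ => ?_
    rw [Int.cast_sum, Finset.mul_sum]
    refine Finset.sum_congr rfl fun u _ => ?_
    split_ifs
    · ring
    · simp
  simp_rw [h1]
  rw [Finset.sum_comm, Complex.ofReal_sum]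
  refine Finset.sum_congr rfl fun s _ => ?_
  rw [Finset.sum_comm, Complex.ofReal_sum]
  refine Finset.sum_congr rfl fun u _ => ?_
  rw [Finset.sum_ite_eq]
  simp only [Finset.mem_univ, if_true, Complex.ofReal_mul, Complex.ofReal_intCast]
  congr 1
  unfold bv
  split_ifs <;> simp

theorem expand_gg_nonneg {ι : Type} [Fintype ι] (μ : ι → ℕ) (p d : ℕ) : 0 ≤ GG μ p d := by
  unfold GG
  exact Finset.sum_nonneg fun u _ => by positivity

theorem expand_term (p : ℕ) [Fact p.Prime] [CharP K p] {κ X : Type} [Fintype κ] [DecidableEq κ] [Fintype X] [DecidableEq X]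
    {D : ℕ → Submodule K (X → K)} (P : Pairing X D) (d : ℕ) (hd : 1 ≤ d)
    (Z : (κ → X) → Bool) (hZ : (fun x => bv K (Z x)) ∈ TD κ D d) (r : X → ℂ) (c : ℂ) (T : Finset κ) :
    ‖∑ x : κ → X, bv ℂ (Z x) *
        ((∏ i ∈ T, c * (P.h (x i) : ℂ)) * ∏ i ∈ univ \ T, r (x i))‖
      ≤ 2 * p ^ 2 * ((KK p * ‖c‖ * GG P.μ p d) ^ T.card * (∑ y, ‖r y‖) ^ (Fintype.card κ - T.card)) := by
  set e := Equiv.piEquivPiSubtypeProd (fun i => i ∈ T) (fun _ : κ => X) with he
  have hG := expand_gg_nonneg P.μ p d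
  have h1 : ∑ x : κ → X, bv ℂ (Z x) *
        ((∏ i ∈ T, c * (P.h (x i) : ℂ)) * ∏ i ∈ univ \ T, r (x i))
      = ∑ w : {i // ¬ i ∈ T} → X, (c ^ T.card * ∏ i, r (w i)) *
          ∑ y : {i // i ∈ T} → X, bv ℂ (Z (e.symm (y, w))) * ∏ i, (P.h (y i) : ℂ) := by
    rw [← Equiv.sum_comp e.symm, Fintype.sum_prod_type, Finset.sum_comm]
    refine Finset.sum_congr rfl fun w _ => ?_
    rw [Finset.mul_sum]
    refine Finset.sum_congr rfl fun y _ => ?_
    have a1 : ∏ i ∈ T, c * (P.h (e.symm (y, w) i) : ℂ)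
        = c ^ T.card * ∏ i : {i // i ∈ T}, (P.h (y i) : ℂ) := by
      rw [Finset.prod_mul_distrib, Finset.prod_const,
        Finset.prod_subtype T (p := fun i => i ∈ T) (fun _ => Iff.rfl)]
      congr 1
      refine Finset.prod_congr rfl fun i _ => ?_
      simp [he, Equiv.piEquivPiSubtypeProd, i.2]
    have a2 : ∏ i ∈ univ \ T, r (e.symm (y, w) i) = ∏ i : {i // ¬ i ∈ T}, r (w i) := by
      rw [Finset.prod_subtype (univ \ T) (p := fun i => ¬ i ∈ T) (fun _ => by simp)]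
      refine Finset.prod_congr rfl fun i _ => ?_
      simp [he, Equiv.piEquivPiSubtypeProd, i.2]
    rw [a1, a2]
    ring
  have h2 : ∀ w : {i // ¬ i ∈ T} → X,
      ‖∑ y : {i // i ∈ T} → X, bv ℂ (Z (e.symm (y, w))) * ∏ i, (P.h (y i) : ℂ)‖
        ≤ 2 * p ^ 2 * (KK p * GG P.μ p d) ^ T.card := by
    intro w
    rw [expand_sum_h P (fun y => Z (e.symm (y, w))), Complex.norm_real, Real.norm_eq_abs]
    have := tensor_bound p P d hd (fun y => Z (e.symm (y, w))) (expand_restrict hZ T w)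
    rwa [Fintype.card_coe] at this
  have h3 : ∑ w : {i // ¬ i ∈ T} → X, ∏ i, ‖r (w i)‖
      = (∑ y, ‖r y‖) ^ (Fintype.card κ - T.card) := by
    have := Finset.prod_univ_sum (fun _ : {i // ¬ i ∈ T} => (univ : Finset X))
      (fun _ y => ‖r y‖)
    rw [Fintype.piFinset_univ] at this
    rw [← this, Finset.prod_const, Finset.card_univ, Fintype.card_subtype_compl,
      Fintype.card_coe]
  rw [h1]
  calc _ ≤ ∑ w : {i // ¬ i ∈ T} → X, ‖(c ^ T.card * ∏ i, r (w i)) *
          ∑ y : {i // i ∈ T} → X, bv ℂ (Z (e.symm (y, w))) * ∏ i, (P.h (y i) : ℂ)‖ :=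
        norm_sum_le _ _
    _ ≤ ∑ w : {i // ¬ i ∈ T} → X, (‖c‖ ^ T.card * ∏ i, ‖r (w i)‖) *
          (2 * p ^ 2 * (KK p * GG P.μ p d) ^ T.card) := by
        refine Finset.sum_le_sum fun w _ => ?_
        rw [norm_mul, norm_mul, norm_pow, norm_prod]
        exact mul_le_mul_of_nonneg_left (h2 w) (by positivity)
    _ = _ := by
        rw [← Finset.sum_mul, ← Finset.mul_sum, h3]
        simp only [mul_pow]
        ring

theorem expand_bound (p : ℕ) [Fact p.Prime] [CharP K p]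
    {κ X : Type} [Fintype κ] [DecidableEq κ] [Fintype X] [DecidableEq X]
    {D : ℕ → Submodule K (X → K)} (P : Pairing X D) (d : ℕ) (hd : 1 ≤ d)
    (Z : (κ → X) → Bool) (hZ : (fun x => bv K (Z x)) ∈ TD κ D d) (φ : X → ℂ) (c : ℂ) :
    ‖∑ x : κ → X, bv ℂ (Z x) * ∏ i, φ (x i)‖
      ≤ 2 * p ^ 2 *
        (∑ y, ‖φ y - c * (P.h y : ℂ)‖ + KK p * ‖c‖ * GG P.μ p d) ^ Fintype.card κ := by
  have h1 : ∀ x : κ → X, bv ℂ (Z x) * ∏ i, φ (x i) =
      ∑ T ∈ (univ : Finset κ).powerset, bv ℂ (Z x) *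
        ((∏ i ∈ T, c * (P.h (x i) : ℂ)) * ∏ i ∈ univ \ T, (φ (x i) - c * (P.h (x i) : ℂ))) := by
    intro x
    rw [← Finset.mul_sum, ← Finset.prod_add]
    congr 1
    exact Finset.prod_congr rfl fun i _ => by ring
  simp_rw [h1]
  rw [Finset.sum_comm, add_comm, ← Finset.card_univ, ← Finset.sum_pow_mul_eq_add_pow,
    Finset.mul_sum]
  refine (norm_sum_le _ _).trans (Finset.sum_le_sum fun T _ => ?_)
  exact expand_term p P d hd Z hZ (fun y => φ y - c * (P.h y : ℂ)) c T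

end Pool.Agent.Lib.MP_8a52c3_lc.Corp
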