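import Pool.Agent.Lib.MP_8a52c3_lc.Corp.Cls

namespace Pool.Agent.Lib.MP_8a52c3_lc.Corp
open Finset

theorem lev_bv (K : Type) [Field K] {σ : Type} (S : Finset σ) (x : σ → Bool) :
    bv K (decide (∀ v ∈ S, x v = true)) = mon K S x := by
  unfold mon
  by_cases h : ∀ v ∈ S, x v = true
  · rw [Finset.prod_eq_one fun v hv => by simp [bv, h v hv]]
    simp only [bv, decide_eq_true_eq]
    rw [if_pos h]
  · have h' := h
    push Not at h'
    obtain ⟨v, hv, hx⟩ := h'
    rw [Finset.prod_eq_zero hv (by simp [bv, hx])]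
    simp only [bv, decide_eq_true_eq]
    rw [if_neg h]

theorem lev_prod {R : Type} [CommRing R] {n : ℕ} (m : Fin n →₀ ℕ) (x : Fin n → Bool) :
    ∏ i ∈ m.support, (if x i = true then (1 : R) else 0) ^ m i
      = if ∀ v ∈ m.support, x v = true then 1 else 0 := by
  by_cases h : ∀ v ∈ m.support, x v = true
  · rw [if_pos h]
    exact Finset.prod_eq_one fun v hv => by simp [h v hv]
  · rw [if_neg h]
    push Not at h
    obtain ⟨v, hv, hx⟩ := h
    refine Finset.prod_eq_zero hv ?_
    rw [if_neg hx]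
    exact zero_pow (Finsupp.mem_support_iff.1 hv)

theorem lev_card {n : ℕ} (m : Fin n →₀ ℕ) : m.support.card ≤ m.sum fun _ e => e := by
  rw [Finsupp.sum, Finset.card_eq_sum_ones]
  exact Finset.sum_le_sum fun i hi => Nat.one_le_iff_ne_zero.2 (Finsupp.mem_support_iff.1 hi)

theorem lev_wt (N n : ℕ) [NeZero N] (P : MvPolynomial (Fin n) (ZMod N)) (x : Fin n → Bool) :
    ((wt (fun s : (Σ m : P.support, Fin (P.coeff m).val) =>
      decide (∀ v ∈ (s.1 : Fin n →₀ ℕ).support, x v = true)) : ℕ) : ZMod N)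
      = MvPolynomial.eval (fun i => if x i = true then (1 : ZMod N) else 0) P := by
  rw [MvPolynomial.eval_eq, wt, Finset.card_filter, ← Finset.univ_sigma_univ, Finset.sum_sigma,
    ← Finset.sum_coe_sort P.support]
  push_cast
  refine Finset.sum_congr rfl fun m _ => ?_
  rw [lev_prod]
  simp only [decide_eq_true_eq, Finset.sum_const, Finset.card_univ, Fintype.card_fin,
    nsmul_eq_mul, ZMod.natCast_zmod_val]

/-- Level sets on the cube of a polynomial modulo a prime power have low degree in
characteristic `p`. -/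
theorem level_mem (K : Type) [Field K] (p : ℕ) [Fact p.Prime] [CharP K p] (t n d : ℕ)
    (P : MvPolynomial (Fin n) (ZMod (p ^ t))) (hP : P.totalDegree ≤ d) (a : ZMod (p ^ t)) :
    (fun x : Fin n → Bool =>
      if MvPolynomial.eval (fun i => if x i = true then (1 : ZMod (p ^ t)) else 0) P = a
      then (1 : K) else 0) ∈ LD K (Fin n) ((p ^ t - 1) * d) := by
  have : NeZero (p ^ t) := ⟨pow_ne_zero _ (Fact.out : p.Prime).ne_zero⟩
  have h := LD_comp (class_mem K p (Σ m : P.support, Fin (P.coeff m).val) t a.val)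
    (τ := Fin n) (e := d)
    (fun s x => decide (∀ v ∈ (s.1 : Fin n →₀ ℕ).support, x v = true)) (fun s => by
      have e := funext (lev_bv K (s.1 : Fin n →₀ ℕ).support)
      have m := mon_mem (K := K) (s.1 : Fin n →₀ ℕ).support
        ((lev_card _).trans ((MvPolynomial.le_totalDegree s.1.2).trans hP))
      have e2 : (fun y : Fin n → Bool =>
          bv K (decide (∀ v ∈ (s.1 : Fin n →₀ ℕ).support, y v = true)))
          = mon K (s.1 : Fin n →₀ ℕ).support := by
        funext y
        rw [← congrFun e y]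
        exact congrArg (bv K) (decide_eq_decide.2 Iff.rfl)
      rw [e2]
      exact m)
  refine (congrArg (· ∈ LD K (Fin n) ((p ^ t - 1) * d)) (funext fun x => ?_)).mpr h
  refine if_congr ?_ rfl rfl
  rw [← lev_wt, ← ZMod.natCast_eq_natCast_iff', ZMod.natCast_zmod_val]

end Pool.Agent.Lib.MP_8a52c3_lc.Corp
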