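import Pool.Agent.Lib.MP_8a52c3_lc.Corp.Good
import Pool.Agent.Lib.MP_8a52c3_lc.Corp.Expand
import Pool.Agent.Lib.MP_8a52c3_lc.Corp.Lev

namespace Pool.Agent.Lib.MP_8a52c3_lc.Corp
open Finset

section
variable {K : Type} [Field K] {κ σ : Type} [Fintype κ] [DecidableEq κ]

omit [DecidableEq κ] in
theorem TD_mono {a b : ℕ} (h : a ≤ b) : TD κ (LD K σ) a ≤ TD κ (LD K σ) b := by
  refine Submodule.span_mono ?_
  rintro f ⟨δ, g, h1, h2, rfl⟩
  exact ⟨δ, g, h1.trans h, h2, rfl⟩

omit [DecidableEq κ] in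
theorem TD_mul {a b : ℕ} {f g : (κ → σ → Bool) → K} (hf : f ∈ TD κ (LD K σ) a)
    (hg : g ∈ TD κ (LD K σ) b) : f * g ∈ TD κ (LD K σ) (a + b) := by
  induction hf using Submodule.span_induction with
  | mem f hf =>
    induction hg using Submodule.span_induction with
    | mem g hg =>
      obtain ⟨δ, u, h1, h2, rfl⟩ := hf
      obtain ⟨δ', u', h1', h2', rfl⟩ := hg
      refine Submodule.subset_span ⟨fun i => δ i + δ' i, fun i => u i * u' i, ?_,
        fun i => LD_mul (h2 i) (h2' i), ?_⟩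
      · rw [Finset.sum_add_distrib]; omega
      · funext x; simp [Finset.prod_mul_distrib]
    | zero => simp
    | add g g' _ _ ih ih' => rw [mul_add]; exact Submodule.add_mem _ ih ih'
    | smul c g _ ih => rw [mul_smul_comm]; exact Submodule.smul_mem _ _ ih
  | zero => simp
  | add f f' _ _ ih ih' => rw [add_mul]; exact Submodule.add_mem _ ih ih'
  | smul c f _ ih => rw [smul_mul_assoc]; exact Submodule.smul_mem _ _ ih

omit [DecidableEq κ] in
theorem TD_const (b : ℕ) (c : K) : (fun _ => c) ∈ TD κ (LD K σ) b := by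
  have h1 : (fun _ => (1 : K)) ∈ TD κ (LD K σ) b :=
    Submodule.subset_span ⟨fun _ => 0, fun _ _ => 1, by simp, fun _ => const_mem σ 0 1, by
      funext x; simp⟩
  have := Submodule.smul_mem _ c h1
  convert this using 1
  funext x; simp

theorem TD_var (i : κ) (v : σ) :
    (fun y : κ → σ → Bool => bv K (y i v)) ∈ TD κ (LD K σ) 1 := by
  refine Submodule.subset_span ⟨fun j => if j = i then 1 else 0,
    fun j => if j = i then (fun x => bv K (x v)) else fun _ => 1, by simp, fun j => ?_, ?_⟩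
  · by_cases h : j = i
    · simp only [h, if_true]; exact var_mem v
    · simp only [h, if_false]; exact const_mem σ 0 1
  · funext y
    rw [Finset.prod_eq_single i]
    · simp
    · intro j _ hj; simp [hj]
    · simp

omit [DecidableEq κ] in
theorem TD_comp {τ : Type} {b : ℕ} {f : (τ → Bool) → K} (hf : f ∈ LD K τ b)
    (φ : τ → (κ → σ → Bool) → Bool) (hφ : ∀ v, (fun y => bv K (φ v y)) ∈ TD κ (LD K σ) 1) :
    (fun y => f (fun v => φ v y)) ∈ TD κ (LD K σ) b := by
  classical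
  induction hf using Submodule.span_induction with
  | mem f hf =>
    obtain ⟨S, hS, rfl⟩ := hf
    refine TD_mono hS ?_
    clear hS
    induction S using Finset.induction_on with
    | empty => simpa [mon] using TD_const (K := K) (κ := κ) (σ := σ) 0 1
    | insert v S hv ih =>
      have := TD_mul (hφ v) ih
      rw [Finset.card_insert_of_notMem hv, add_comm]
      convert this using 1
      funext y
      simp [mon, Finset.prod_insert hv]
  | zero => exact Submodule.zero_mem _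
  | add f f' _ _ ih ih' => exact Submodule.add_mem _ ih ih'
  | smul c f _ ih => exact Submodule.smul_mem _ c ih

end

theorem wt_eq_sum {σ : Type} [Fintype σ] (x : σ → Bool) :
    wt x = ∑ v, if x v = true then 1 else 0 := by
  unfold wt
  rw [Finset.card_filter]

/-- Bound for a set whose indicator has low degree. -/
theorem ind_bound {K : Type} [Field K] (p : ℕ) [Fact p.Prime] [CharP K p]
    {n k l r d : ℕ} (hn : k * l + r = n) (hd : 1 ≤ d) (ζ : ℂ) (hζ : ‖ζ‖ = 1)
    (P : Pairing (Fin l → Bool) (LD K (Fin l))) (c : ℂ) (ρ : ℝ)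
    (hρ : ∑ x, ‖ζ ^ wt x - c * (P.h x : ℂ)‖ + KK p * ‖c‖ * GG P.μ p d ≤ ρ * 2 ^ l)
    (Z : (Fin n → Bool) → Bool) (hf : (fun x => bv K (Z x)) ∈ LD K (Fin n) d) :
    ‖∑ x : Fin n → Bool, bv ℂ (Z x) * ζ ^ wt x‖ ≤ 2 * p ^ 2 * ρ ^ k * 2 ^ n := by
  let e : Fin n ≃ (Fin k × Fin l) ⊕ Fin r := Fintype.equivOfCardEq (by simp [hn])
  let E : (Fin r → Bool) × (Fin k → Fin l → Bool) ≃ (Fin n → Bool) :=
    { toFun := fun p v => Sum.elim (fun a => p.2 a.1 a.2) p.1 (e v)
      invFun := fun x => (fun b => x (e.symm (Sum.inr b)), fun i t => x (e.symm (Sum.inl (i, t))))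
      left_inv := fun p => by simp
      right_inv := fun x => by
        funext v
        obtain ⟨s, rfl⟩ := e.symm.surjective v
        rcases s with ⟨i, t⟩ | b <;> simp }
  have hw : ∀ (w : Fin r → Bool) (y : Fin k → Fin l → Bool),
      wt (E (w, y)) = wt w + ∑ i, wt (y i) := by
    intro w y
    simp only [wt_eq_sum]
    have := e.sum_comp (fun s => if Sum.elim (fun a : Fin k × Fin l => y a.1 a.2) w s = true
      then 1 else 0)
    refine this.trans ?_
    rw [Fintype.sum_sum_type, Fintype.sum_prod_type, add_comm]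
    rfl
  have hG : 0 ≤ GG P.μ p d := Finset.sum_nonneg fun _ _ => by positivity
  have hK : 0 ≤ KK p := by unfold KK; positivity
  have h0 : 0 ≤ ∑ x, ‖ζ ^ wt x - c * (P.h x : ℂ)‖ + KK p * ‖c‖ * GG P.μ p d := by positivity
  rw [← E.sum_comp, Fintype.sum_prod_type]
  have hin : ∀ w : Fin r → Bool, ‖∑ y : Fin k → Fin l → Bool,
      bv ℂ (Z (E (w, y))) * ζ ^ wt (E (w, y))‖ ≤ 2 * p ^ 2 * (ρ * 2 ^ l) ^ k := by
    intro w
    have hp : (fun y : Fin k → Fin l → Bool => bv K (Z (E (w, y))))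
        ∈ TD (Fin k) (LD K (Fin l)) d := by
      refine TD_comp hf (fun v y => Sum.elim (fun a : Fin k × Fin l => y a.1 a.2) w (e v)) ?_
      intro v
      rcases e v with ⟨i, t⟩ | b
      · exact TD_var i t
      · exact TD_const 1 (bv K (w b))
    have hb := expand_bound p P d hd _ hp (fun x => ζ ^ wt x) c
    have heq : ∑ y : Fin k → Fin l → Bool, bv ℂ (Z (E (w, y))) * ζ ^ wt (E (w, y))
        = ζ ^ wt w * ∑ y : Fin k → Fin l → Bool,
          bv ℂ (Z (E (w, y))) * ∏ i, ζ ^ wt (y i) := by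
      rw [Finset.mul_sum]
      refine Finset.sum_congr rfl fun y _ => ?_
      rw [hw, pow_add, Finset.prod_pow_eq_pow_sum]; ring
    rw [heq, norm_mul, norm_pow, hζ, one_pow, one_mul]
    refine hb.trans ?_
    rw [Fintype.card_fin]
    gcongr
  calc _ ≤ ∑ w : Fin r → Bool, ‖∑ y : Fin k → Fin l → Bool,
      bv ℂ (Z (E (w, y))) * ζ ^ wt (E (w, y))‖ := norm_sum_le _ _
    _ ≤ ∑ _w : Fin r → Bool, 2 * (p : ℝ) ^ 2 * (ρ * 2 ^ l) ^ k :=
      Finset.sum_le_sum fun w _ => hin w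
    _ = 2 * p ^ 2 * ρ ^ k * 2 ^ n := by
      rw [← hn]
      simp only [Finset.sum_const, Finset.card_univ, Fintype.card_fun, Fintype.card_bool,
        Fintype.card_fin, nsmul_eq_mul]
      push_cast
      rw [mul_pow, pow_add, pow_mul']
      ring

/-- Sets of low degree in characteristic `p` are equidistributed modulo `q`. -/
theorem set_bound (K : Type) [Field K] (p : ℕ) [Fact p.Prime] [CharP K p] (q : ℕ)
    (hq : Nat.Coprime p q) (ζ : ℂ) (hζ : ζ ^ q = 1) (h1 : ζ ≠ 1) :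
    ∃ c : ℝ, 0 < c ∧ ∀ n d : ℕ, 1 ≤ d → ∀ Z : (Fin n → Bool) → Bool,
      (fun x => bv K (Z x)) ∈ LD K (Fin n) d →
      ‖∑ x : Fin n → Bool, bv ℂ (Z x) * ζ ^ wt x‖
        ≤ 6 * p ^ 2 * Real.exp (-(c * n / d ^ 2)) * 2 ^ n := by
  have hK : 0 ≤ KK p := by unfold KK; positivity
  obtain ⟨δ, hδ, C0, hC⟩ := good_block K p q hq ζ hζ h1 (KK p) hK
  have hq0 : q ≠ 0 := by
    rintro rfl
    exact (Fact.out : p.Prime).one_lt.ne' (by simpa using hq)
  have hz : ‖ζ‖ = 1 := by
    have := congrArg norm hζ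
    rw [norm_pow, norm_one] at this
    exact (pow_eq_one_iff_of_nonneg (norm_nonneg _) hq0).1 this
  have hC0 : 0 < C0 := by
    obtain ⟨l, h1, h2, -⟩ := hC 1 le_rfl
    simp at h2; omega
  refine ⟨δ / C0, by positivity, fun n d hd Z hZ => ?_⟩
  obtain ⟨l, hl1, hl2, Q, c, hQ⟩ := hC d hd
  have hn : n / l * l + n % l = n := Nat.div_add_mod' n l
  have b1 := ind_bound p hn hd ζ hz Q c _ hQ Z hZ
  have hG : 0 ≤ GG Q.μ p d := Finset.sum_nonneg fun _ _ => by positivity
  have h0 : 0 ≤ ∑ x, ‖ζ ^ wt x - c * (Q.h x : ℂ)‖ + KK p * ‖c‖ * GG Q.μ p d := by positivity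
  have hρ0 : 0 ≤ 1 - δ := nonneg_of_mul_nonneg_left (h0.trans hQ) (by positivity)
  have hk : (1 - δ) ^ (n / l) ≤ Real.exp (-(δ * (n / l : ℕ))) := by
    have h3 : 1 - δ ≤ Real.exp (-δ) := by linarith [Real.add_one_le_exp (-δ)]
    calc _ ≤ Real.exp (-δ) ^ (n / l) := pow_le_pow_left₀ hρ0 h3 _
      _ = _ := by rw [← Real.exp_nat_mul]; congr 1; ring
  have hl0 : (0 : ℝ) < l := by exact_mod_cast hl1
  have hdiv : (n : ℝ) / (C0 * d ^ 2) ≤ (n / l : ℕ) + 1 := by
    have h4 : (n : ℝ) ≤ ((n / l : ℕ) + 1) * l := by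
      have : n ≤ (n / l + 1) * l := by
        have := Nat.mod_lt n hl1
        nlinarith
      exact_mod_cast this
    have h5 : (l : ℝ) ≤ C0 * d ^ 2 := by exact_mod_cast hl2
    rw [div_le_iff₀ (hl0.trans_le h5)]
    exact h4.trans (mul_le_mul_of_nonneg_left h5 (by positivity))
  have hexp : Real.exp (-(δ * (n / l : ℕ))) ≤ 3 * Real.exp (-(δ / C0 * n / d ^ 2)) := by
    have h6 : δ / C0 * n / d ^ 2 = δ * (n / (C0 * d ^ 2)) := by field_simp
    have h7 : -(δ * (n / l : ℕ)) ≤ 1 + -(δ / C0 * n / d ^ 2) := by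
      rw [h6]
      have := mul_le_mul_of_nonneg_left hdiv hδ.le
      nlinarith
    calc _ ≤ Real.exp (1 + -(δ / C0 * n / d ^ 2)) := Real.exp_le_exp.2 h7
      _ = Real.exp 1 * Real.exp (-(δ / C0 * n / d ^ 2)) := Real.exp_add _ _
      _ ≤ _ := by
        gcongr
        linarith [Real.exp_one_lt_d9]
  refine b1.trans ?_
  have h2n : (0 : ℝ) ≤ 2 * p ^ 2 * 2 ^ n := by positivity
  nlinarith [mul_le_mul_of_nonneg_right (hk.trans hexp) h2n]

/-- Removing the constant in front of the exponential. -/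
theorem const_two (C c : ℝ) (hC : 2 ≤ C) (hc : 0 < c) :
    ∃ c' : ℝ, 0 < c' ∧ ∀ y N : ℝ, 0 ≤ N → y ≤ 1 → y ≤ C * Real.exp (-(c * N)) →
      y ≤ 2 * Real.exp (-(c' * N)) := by
  have h2 : 0 < Real.log 2 := Real.log_pos one_lt_two
  have h3 : Real.log 2 ≤ Real.log C := Real.log_le_log two_pos hC
  have h4 : 0 < Real.log C := h2.trans_le h3
  refine ⟨c * (Real.log 2 / (2 * Real.log C)), by positivity, fun y N hN h1 hy => ?_⟩
  have h5 : Real.log 2 / (2 * Real.log C) ≤ 1 / 2 := by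
    rw [div_le_div_iff₀ (by positivity) two_pos]; linarith
  have h6 : 0 ≤ c * N := by positivity
  by_cases h : c * N ≤ 2 * Real.log C
  · refine h1.trans ?_
    have h7 : c * (Real.log 2 / (2 * Real.log C)) * N ≤ Real.log 2 := by
      calc _ = (c * N) * (Real.log 2 / (2 * Real.log C)) := by ring
        _ ≤ (2 * Real.log C) * (Real.log 2 / (2 * Real.log C)) := by gcongr
        _ = _ := by field_simp
    have h8 := Real.exp_le_exp.2 (neg_le_neg h7)
    rw [Real.exp_neg, Real.exp_log two_pos] at h8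
    linarith
  · refine hy.trans ?_
    have h9 : C * Real.exp (-(c * N)) = Real.exp (Real.log C + -(c * N)) := by
      rw [Real.exp_add, Real.exp_log (by linarith)]
    have h10 : Real.log C + -(c * N) ≤ -(c * (Real.log 2 / (2 * Real.log C)) * N) := by
      have := mul_le_mul_of_nonneg_left h5 h6
      nlinarith
    rw [h9]
    have := Real.exp_le_exp.2 h10
    linarith [Real.exp_pos (-(c * (Real.log 2 / (2 * Real.log C)) * N))]

theorem mod_correlation (m q : ℕ) (hm : IsPrimePow m) (hq : Nat.Coprime m q)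
    (ζ : ℂ) (hζ : ζ ^ q = 1) (h1 : ζ ≠ 1) :
    ∃ c : ℝ, 0 < c ∧ ∀ n d : ℕ, 1 ≤ d → ∀ P : MvPolynomial (Fin n) (ZMod m),
      P.totalDegree ≤ d → ∀ g : ZMod m → ℂ, (∀ a, ‖g a‖ ≤ 1) →
      ‖∑ S : Finset (Fin n), g (MvPolynomial.eval (fun i => if i ∈ S then 1 else 0) P) *
          ζ ^ S.card‖ / 2 ^ n ≤ 2 * Real.exp (-(c * n / d ^ 2)) := by
  obtain ⟨p, t, hp, ht, rfl⟩ := (isPrimePow_nat_iff m).1 hm
  have : Fact p.Prime := ⟨hp⟩
  have hm2 : 2 ≤ p ^ t := hm.two_le
  have : NeZero (p ^ t) := ⟨by omega⟩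
  have hpq : Nat.Coprime p q := Nat.Coprime.coprime_dvd_left (dvd_pow_self p ht.ne') hq
  obtain ⟨c, hc, hC⟩ := set_bound (ZMod p) p q hpq ζ hζ h1
  have hq0 : q ≠ 0 := by
    rintro rfl
    exact hp.one_lt.ne' (by simpa using hpq)
  have hz : ‖ζ‖ = 1 := by
    have := congrArg norm hζ
    rw [norm_pow, norm_one] at this
    exact (pow_eq_one_iff_of_nonneg (norm_nonneg _) hq0).1 this
  have hM : (1 : ℝ) ≤ ((p ^ t - 1 : ℕ) : ℝ) := by exact_mod_cast (by omega : 1 ≤ p ^ t - 1)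
  have hp1 : (1 : ℝ) ≤ p := by exact_mod_cast hp.one_le
  have hC2 : (2 : ℝ) ≤ ((p ^ t : ℕ) : ℝ) * (6 * p ^ 2) := by
    have h2 : (2 : ℝ) ≤ ((p ^ t : ℕ) : ℝ) := by exact_mod_cast hm2
    nlinarith
  obtain ⟨c', hc', hcc⟩ := const_two _ (c / ((p ^ t - 1 : ℕ) : ℝ) ^ 2) hC2 (by positivity)
  refine ⟨c', hc', fun n d hd P hP g hg => ?_⟩
  rw [mul_div_assoc]
  refine hcc _ _ (by positivity) ?_ ?_
  · rw [div_le_one (by positivity)]
    refine (norm_sum_le _ _).trans ?_
    calc _ ≤ ∑ _S : Finset (Fin n), (1 : ℝ) := Finset.sum_le_sum fun S _ => by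
          rw [norm_mul, norm_pow, hz, one_pow, mul_one]; exact hg _
      _ = _ := by simp
  · have heq : ∑ S : Finset (Fin n), g (MvPolynomial.eval (fun i => if i ∈ S then 1 else 0) P) *
          ζ ^ S.card = ∑ a : ZMod (p ^ t), g a * ∑ x : Fin n → Bool,
            bv ℂ (decide (MvPolynomial.eval
              (fun i => if x i = true then (1 : ZMod (p ^ t)) else 0) P = a)) * ζ ^ wt x := by
      simp only [Finset.mul_sum]
      rw [Finset.sum_comm]
      symm
      refine Finset.sum_nbij' (fun x => univ.filter (fun i => x i = true))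
        (fun S i => decide (i ∈ S)) (by simp) (by simp) ?_ ?_ ?_
      · intro x _; funext i; simp
      · intro S _; ext i; simp
      · intro x _
        simp [bv, wt]
    rw [heq, div_le_iff₀ (by positivity)]
    refine (norm_sum_le _ _).trans ?_
    have hd' : 1 ≤ (p ^ t - 1) * d := Nat.mul_pos (by omega) hd
    calc _ ≤ ∑ _a : ZMod (p ^ t), 6 * (p : ℝ) ^ 2 *
          Real.exp (-(c * n / (((p ^ t - 1) * d : ℕ) : ℝ) ^ 2)) * 2 ^ n := by
          refine Finset.sum_le_sum fun a _ => ?_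
          rw [norm_mul]
          refine (mul_le_of_le_one_left (norm_nonneg _) (hg a)).trans (hC n _ hd' _ ?_)
          refine (congrArg (· ∈ LD (ZMod p) (Fin n) ((p ^ t - 1) * d)) (funext fun x => ?_)).mpr
            (level_mem (ZMod p) p t n d P hP a)
          simp [bv]
      _ = _ := by
          have : c * n / (((p ^ t - 1) * d : ℕ) : ℝ) ^ 2
              = c / ((p ^ t - 1 : ℕ) : ℝ) ^ 2 * (n / d ^ 2) := by
            rw [Nat.cast_mul]; field_simp
          rw [this, Finset.sum_const, Finset.card_univ, ZMod.card, nsmul_eq_mul]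
          ring

end Pool.Agent.Lib.MP_8a52c3_lc.Corp
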