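import Pool.Agent.Lib.MP_8a52c3_lc.Cor.Num

namespace Pool.Agent.Lib.MP_8a52c3_lc.Corp
open Finset

theorem num_mass' (R z q : ℕ) (hR : 12 ≤ R) (hz : 1 ≤ z) (hq : 1 ≤ q) (l : ℕ)
    (hl : l = 2 * (R ^ 3 * z ^ 2) + 4 * z + R ^ 2 * z) :
    (2 : ℝ) ^ l * (Real.exp (-(2 * R)) / (2 * q * R ^ 2))
      ≤ ((2 * z / q + 1 : ℕ) : ℝ) * (l.choose (R ^ 3 * z ^ 2) : ℝ) := by
  have hR' : (12 : ℝ) ≤ R := by exact_mod_cast hR
  have hz' : (1 : ℝ) ≤ z := by exact_mod_cast hz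
  have hq' : (1 : ℝ) ≤ q := by exact_mod_cast hq
  obtain ⟨u, e, he, hu⟩ : ∃ u e : ℕ, e ≤ 1 ∧ R ^ 2 * z = 2 * u + e :=
    ⟨R ^ 2 * z / 2, R ^ 2 * z % 2, by omega, by omega⟩
  have h4 : 5 * z ≤ R ^ 2 * z := Nat.mul_le_mul_right _ (by nlinarith)
  obtain ⟨h, hh⟩ : ∃ h, R ^ 3 * z ^ 2 + (2 * z + u) = h + 1 :=
    ⟨R ^ 3 * z ^ 2 + (2 * z + u) - 1, by omega⟩
  have hs : 2 * z + u ≤ R ^ 2 * z := by omega
  have hQ : R ^ 2 * z ≤ R ^ 3 * z ^ 2 :=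
    Nat.mul_le_mul (Nat.pow_le_pow_right (by omega) (by norm_num))
      (Nat.le_self_pow (by norm_num) _)
  have hl2 : l = 2 * (h + 1) + e := by omega
  have hh2 : h + 1 ≤ (R ^ 2 * z) ^ 2 := by
    have : (R ^ 2 * z) ^ 2 = R * (R ^ 3 * z ^ 2) := by ring
    have h5 : 2 * (R ^ 3 * z ^ 2) ≤ R * (R ^ 3 * z ^ 2) := Nat.mul_le_mul_right _ (by omega)
    omega
  have h0 : 2 ^ (2 * (h + 1)) ≤ 2 * (R ^ 2 * z) * (2 * (h + 1)).choose (h + 1) := by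
    refine (Nat.pow_le_pow_iff_left (n := 2) (by norm_num)).1 ?_
    calc (2 ^ (2 * (h + 1))) ^ 2 = 16 ^ (h + 1) := by
          rw [← pow_mul, show 16 = 2 ^ 4 by norm_num, ← pow_mul]; congr 1; ring
      _ ≤ 4 * (h + 1) * (h + 1).centralBinom ^ 2 := Cor.num_central h
      _ ≤ 4 * (R ^ 2 * z) ^ 2 * (h + 1).centralBinom ^ 2 :=
          Nat.mul_le_mul_right _ (Nat.mul_le_mul_left _ hh2)
      _ = _ := by rw [Nat.centralBinom_eq_two_mul_choose]; ring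
  have h1 : 2 ^ l ≤ 4 * (R ^ 2 * z) * l.choose (h + 1) := by
    have ha : (2 * (h + 1)).choose (h + 1) ≤ l.choose (h + 1) :=
      Nat.choose_le_choose _ (by omega)
    calc 2 ^ l ≤ 2 ^ (2 * (h + 1) + 1) := Nat.pow_le_pow_right (by norm_num) (by omega)
      _ = 2 * 2 ^ (2 * (h + 1)) := by ring
      _ ≤ 2 * (2 * (R ^ 2 * z) * l.choose (h + 1)) :=
          Nat.mul_le_mul_left _ (h0.trans (Nat.mul_le_mul_left _ ha))
      _ = _ := by ring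
  have h1' : (2 : ℝ) ^ l ≤ 4 * (R ^ 2 * z) * l.choose (h + 1) := by exact_mod_cast h1
  have h2 := Cor.num_up R z hR hz l hl (2 * z + u)
  rw [hh] at h2
  have h3 : Real.exp ((2 * z + u : ℕ) * (2 / (R * z))) ≤ Real.exp (2 * R) := by
    refine Real.exp_le_exp.2 ?_
    have h5 : ((2 * z + u : ℕ) : ℝ) ≤ R ^ 2 * z := by exact_mod_cast hs
    calc _ ≤ (R ^ 2 * z : ℝ) * (2 / (R * z)) := mul_le_mul_of_nonneg_right h5 (by positivity)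
      _ = _ := by field_simp
  set γ : ℝ := (l.choose (R ^ 3 * z ^ 2) : ℝ)
  have hγ : 0 ≤ γ := Nat.cast_nonneg _
  have h5 : (2 : ℝ) ^ l ≤ 4 * (R ^ 2 * z) * (γ * Real.exp (2 * R)) :=
    h1'.trans (mul_le_mul_of_nonneg_left (h2.trans (mul_le_mul_of_nonneg_left h3 hγ))
      (by positivity))
  have h6 := Cor.num_N z q hq
  calc _ ≤ 4 * (R ^ 2 * z) * (γ * Real.exp (2 * R)) * (Real.exp (-(2 * R)) / (2 * q * R ^ 2)) :=
        mul_le_mul_of_nonneg_right h5 (by positivity)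
    _ = γ / q * (2 * z) := by rw [Real.exp_neg]; field_simp; ring
    _ ≤ γ / q * (((2 * z / q + 1 : ℕ) : ℝ) * q) := mul_le_mul_of_nonneg_left h6 (by positivity)
    _ = _ := by field_simp

end Pool.Agent.Lib.MP_8a52c3_lc.Corp
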