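import Pool.Agent.Lib.MP_8a52c3_lc.Corp.Block

namespace Pool.Agent.Lib.MP_8a52c3_lc.Corp
open Finset

theorem ineq_sum_ind {n : ℕ} {X : Type} [DecidableEq X] (β : Fin n → X)
    (hβ : Function.Injective β) (s : ℤ) (x : X) :
    (∑ u, if β u = x then s else 0) = if x ∈ univ.image β then s else 0 := by
  by_cases h : x ∈ univ.image β
  · rw [if_pos h]
    obtain ⟨u, -, rfl⟩ := mem_image.1 h
    rw [sum_eq_single u]
    · simp
    · intro u' _ hu
      exact if_neg fun e => hu (hβ e)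
    · simp
  · rw [if_neg h]
    refine sum_eq_zero fun u _ => if_neg fun e => h ?_
    exact mem_image.2 ⟨u, mem_univ _, e⟩

theorem ineq_h {K : Type} [Field K] {X : Type} [DecidableEq X] {D : ℕ → Submodule K (X → K)}
    (P : Pairing X D)
    (x : X) : P.h x = (if x ∈ univ.image (P.β false) then 1 else 0)
      + (if x ∈ univ.image (P.β true) then -1 else 0) := by
  unfold Pairing.h
  rw [Fintype.sum_bool, add_comm, ineq_sum_ind _ (P.inj false), ineq_sum_ind _ (P.inj true)]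
  simp [sg]

theorem ineq_choose_mono (l k m : ℕ) (h : k ≤ m) (hm : m ≤ l / 2) : l.choose k ≤ l.choose m := by
  induction m, h using Nat.le_induction with
  | base => exact le_rfl
  | succ m _ ih => exact (ih (by omega)).trans (Nat.choose_le_succ_of_lt_half_left (by omega))

theorem ineq_card_lo (l : ℕ) (p : ℕ → Prop) [DecidablePred p] :
    (univ.filter (fun x : Fin l → Bool => p (wt x))).card
      = ∑ i ∈ (range (l + 1)).filter p, l.choose i := by
  rw [card_eq_sum_card_fiberwise (f := fun x : Fin l → Bool => wt x) (t := (range (l + 1)).filter p)]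
  · refine sum_congr rfl fun i hi => ?_
    rw [← card_wt_eq l i]
    congr 1
    ext x
    simp only [mem_filter, mem_univ, true_and]
    exact ⟨fun h => h.2, fun h => ⟨h ▸ (mem_filter.1 hi).2, h⟩⟩
  · intro x hx
    have h1 := wt_le x
    rw [Fintype.card_fin] at h1
    simp only [coe_filter, mem_univ, true_and, Set.mem_ofPred_eq, mem_range] at hx ⊢
    exact ⟨by omega, hx⟩

theorem ineq_card_hi (l A B : ℕ) (Q : ℕ) (h : A + B = l + Q) :
    (univ.filter (fun x : Fin l → Bool => B ≤ wt x)).card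
      ≤ (univ.filter (fun x : Fin l → Bool => wt x + Q ≤ A)).card := by
  refine card_le_card_of_injOn (fun x v => !x v) (fun x hx => ?_) fun x _ y _ e => ?_
  · have h1 := wt_flip x
    rw [Fintype.card_fin] at h1
    simp only [coe_filter, mem_univ, true_and, Set.mem_ofPred_eq] at hx ⊢
    omega
  · funext v
    exact Bool.not_inj (congrFun e v)

theorem ineq_GG {n : ℕ} (μ : Fin n → ℕ) (p z t d : ℕ) (hd : 1 ≤ d)
    (ht : (t + 2 * p) * d ≤ z) :
    GG μ p d ≤ (n : ℝ) - ((univ.filter (fun u => z ≤ μ u)).card : ℝ) + (1 / 2 : ℝ) ^ t * n := by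
  have h1 : ∀ u, (1 / 2 : ℝ) ^ ((μ u - 2 * p * d) / d)
      ≤ 1 - (if z ≤ μ u then 1 else 0) + (1 / 2 : ℝ) ^ t := fun u => by
    have h0 : (0 : ℝ) ≤ (1 / 2 : ℝ) ^ t := by positivity
    split_ifs with h
    · have h2 : t ≤ (μ u - 2 * p * d) / d := by
        rw [Nat.le_div_iff_mul_le (by omega)]
        have : (t + 2 * p) * d = t * d + 2 * p * d := by ring
        omega
      have := pow_le_pow_of_le_one (a := (1 / 2 : ℝ)) (by norm_num) (by norm_num) h2
      linarith
    · have := pow_le_one₀ (a := (1 / 2 : ℝ)) (n := (μ u - 2 * p * d) / d) (by norm_num) (by norm_num)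
      linarith
  refine (sum_le_sum fun u _ => h1 u).trans (le_of_eq ?_)
  rw [sum_add_distrib, sum_sub_distrib, sum_boole]
  simp [mul_comm]

theorem block_ineq (K : Type) [Field K] (p : ℕ) [Fact p.Prime] [CharP K p]
    (j a w z q N l t d : ℕ) (hw : w < p ^ j) (hz : z ≤ a) (hq : 0 < q)
    (hN : q * (N - 1) ≤ w) (hl : l = 2 * a + w + p ^ j) (hd : 1 ≤ d) (ht : (t + 2 * p) * d ≤ z)
    (ζ : ℂ) (hζ : ζ ^ q = 1) (κ : ℝ) (hκ : ‖(1 + ζ ^ p ^ j) / 2‖ ≤ κ) (A : ℝ) (hA : 0 ≤ A)
    (ht2 : A * (1 / 2 : ℝ) ^ t ≤ 1 - κ) :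
    ∃ (P : Pairing (Fin l → Bool) (LD K (Fin l))) (c : ℂ),
      ∑ x, ‖ζ ^ wt x - c * (P.h x : ℂ)‖ + A * ‖c‖ * GG P.μ p d
        ≤ 2 ^ l - (1 - κ) * ((N : ℝ) * (l.choose (a - z) : ℝ))
          + (4 + A) * ∑ i ∈ (range (l + 1)).filter (fun i => i + p ^ j ≤ a + w), (l.choose i : ℝ)
          + A * ((N : ℝ) * (l.choose (a + w) : ℝ) - (N : ℝ) * (l.choose (a - z) : ℝ)) := by
  obtain ⟨P, h0, h1, hm⟩ := block_exists K p j a w z q N l hw hz hq hN hl
  generalize p ^ j = Q at *
  set c : ℂ := (ζ ^ a - ζ ^ (a + Q)) / 2 with hc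
  refine ⟨P, c, ?_⟩
  have hn : ‖ζ‖ = 1 := by
    have := congrArg norm hζ
    rw [norm_pow, norm_one] at this
    exact (pow_eq_one_iff_of_nonneg (norm_nonneg _) hq.ne').1 this
  have hnp : ∀ k : ℕ, ‖ζ ^ k‖ = 1 := fun k => by rw [norm_pow, hn, one_pow]
  have hc1 : ‖c‖ ≤ 1 := by
    have := norm_sub_le (ζ ^ a) (ζ ^ (a + Q))
    rw [hnp, hnp] at this
    rw [hc, norm_div, Complex.norm_two]
    linarith
  have hκ0 : 0 ≤ κ := (norm_nonneg _).trans hκ
  have hκ1 : 0 ≤ 1 - κ := le_trans (by positivity) ht2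
  have hqi : ∀ i < N, q * i ≤ w := fun i hi =>
    (Nat.mul_le_mul_left q (by omega : i ≤ N - 1)).trans hN
  have hper : ∀ i, ζ ^ (q * i) = 1 := fun i => by rw [pow_mul, hζ, one_pow]
  have htop : ‖ζ ^ a * ((1 + ζ ^ Q) / 2)‖ ≤ κ := by rwa [norm_mul, hnp, one_mul]
  set I0 := univ.image (P.β false) with hI0
  set I1 := univ.image (P.β true) with hI1
  set Lo := univ.filter (fun x : Fin l → Bool => wt x + Q ≤ a + w) with hLo
  set Hi := univ.filter (fun x : Fin l → Bool => a + 2 * Q ≤ wt x) with hHi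
  have pt : ∀ x : Fin l → Bool, ‖ζ ^ wt x - c * (P.h x : ℂ)‖
      ≤ 1 - (1 - κ) * ((if x ∈ I0 then 1 else 0) + (if x ∈ I1 then 1 else 0))
        + 2 * ((if x ∈ Lo then 1 else 0) + (if x ∈ Hi then 1 else 0)) := fun x => by
    have pLo : (0 : ℝ) ≤ if x ∈ Lo then 1 else 0 := by split_ifs <;> norm_num
    have pHi : (0 : ℝ) ≤ if x ∈ Hi then 1 else 0 := by split_ifs <;> norm_num
    rw [ineq_h]
    by_cases a0 : x ∈ I0
    · obtain ⟨u, -, hu⟩ := mem_image.1 a0
      have b0 := h0 u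
      rw [hu] at b0
      have a1 : x ∉ I1 := fun a1 => by
        obtain ⟨u', -, hu'⟩ := mem_image.1 a1
        have b1 := h1 u'
        rw [hu'] at b1
        rcases b0 with ⟨i, hi, b0⟩ | b0
        · have := hqi i hi
          rcases b1 with ⟨i', -, b1⟩ | b1 <;> omega
        · rcases b1 with ⟨i', -, b1⟩ | b1 <;> omega
      rw [if_pos a0, if_neg a1, if_pos a0, if_neg a1]
      rcases b0 with ⟨i, hi, b0⟩ | b0
      · have e : ζ ^ wt x - c * (((1 : ℤ) + 0 : ℤ) : ℂ) = ζ ^ a * ((1 + ζ ^ Q) / 2) := by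
          rw [b0, pow_add, hper, hc, pow_add]; push_cast; ring
        rw [e]
        linarith
      · have m : x ∈ Lo := mem_filter.2 ⟨mem_univ _, b0⟩
        have := norm_sub_le (ζ ^ wt x) (c * (((1 : ℤ) + 0 : ℤ) : ℂ))
        rw [hnp, norm_mul] at this
        simp only [add_zero, Int.cast_one, norm_one, mul_one] at this ⊢
        rw [if_pos m]
        linarith
    · by_cases a1 : x ∈ I1
      · obtain ⟨u, -, hu⟩ := mem_image.1 a1
        have b1 := h1 u
        rw [hu] at b1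
        rw [if_neg a0, if_pos a1, if_neg a0, if_pos a1]
        rcases b1 with ⟨i, hi, b1⟩ | b1
        · have e : ζ ^ wt x - c * (((0 : ℤ) + -1 : ℤ) : ℂ) = ζ ^ a * ((1 + ζ ^ Q) / 2) := by
            rw [b1, pow_add, pow_add, hper, hc, pow_add]; push_cast; ring
          rw [e]
          linarith
        · have m : x ∈ Hi := mem_filter.2 ⟨mem_univ _, b1⟩
          have := norm_sub_le (ζ ^ wt x) (c * (((0 : ℤ) + -1 : ℤ) : ℂ))
          rw [hnp, norm_mul] at this
          simp only [zero_add, Int.cast_neg, Int.cast_one, norm_neg, norm_one, mul_one] at this ⊢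
          rw [if_pos m]
          linarith
      · rw [if_neg a0, if_neg a1, if_neg a0, if_neg a1]
        simp only [add_zero, Int.cast_zero, mul_zero, sub_zero, hnp]
        linarith
  have ind : ∀ S : Finset (Fin l → Bool), ∑ x, (if x ∈ S then (1 : ℝ) else 0) = S.card := fun S => by
    simp
  have c0 : I0.card = P.n := by rw [hI0, card_image_of_injective _ (P.inj false)]; simp
  have c1 : I1.card = P.n := by rw [hI1, card_image_of_injective _ (P.inj true)]; simp
  have cLo : (Lo.card : ℝ)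
      = ∑ i ∈ (range (l + 1)).filter (fun i => i + Q ≤ a + w), (l.choose i : ℝ) := by
    rw [hLo, ineq_card_lo l (fun i => i + Q ≤ a + w)]; push_cast; rfl
  have cHi : (Hi.card : ℝ) ≤ Lo.card := by
    exact_mod_cast ineq_card_hi l (a + w) (a + 2 * Q) Q (by omega)
  have s1 : ∑ x : Fin l → Bool, ‖ζ ^ wt x - c * (P.h x : ℂ)‖
      ≤ 2 ^ l - (1 - κ) * (P.n + P.n) + 2 * (Lo.card + Hi.card) := by
    refine (sum_le_sum fun x _ => pt x).trans (le_of_eq ?_)
    rw [sum_add_distrib, sum_sub_distrib, ← mul_sum, ← mul_sum, sum_add_distrib, sum_add_distrib,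
      ind, ind, ind, ind, c0, c1]
    simp
  have s2 : P.n ≤ N * l.choose (a + w) + Lo.card := by
    have sub : I0 ⊆ (range N).biUnion
        (fun i => univ.filter (fun x : Fin l → Bool => wt x = a + q * i)) ∪ Lo := fun x hx => by
      obtain ⟨u, -, rfl⟩ := mem_image.1 hx
      rcases h0 u with ⟨i, hi, b⟩ | b
      · exact mem_union_left _ (mem_biUnion.2 ⟨i, mem_range.2 hi, mem_filter.2 ⟨mem_univ _, b⟩⟩)
      · exact mem_union_right _ (mem_filter.2 ⟨mem_univ _, b⟩)
    rw [← c0]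
    refine (card_le_card sub).trans ((card_union_le _ _).trans (Nat.add_le_add_right ?_ _))
    refine card_biUnion_le.trans ?_
    have : ∀ i ∈ range N, (univ.filter (fun x : Fin l → Bool => wt x = a + q * i)).card
        ≤ l.choose (a + w) := fun i hi => by
      rw [card_wt_eq]
      have := hqi i (mem_range.1 hi)
      exact ineq_choose_mono l _ _ (by omega) (by omega)
    simpa using sum_le_card_nsmul _ _ _ this
  have s3 := ineq_GG P.μ p z t d hd ht
  have s4 : (univ.filter (fun u => z ≤ P.μ u)).card ≤ P.n := by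
    simpa using card_filter_le (univ : Finset (Fin P.n)) (fun u => z ≤ P.μ u)
  have g0 : 0 ≤ GG P.μ p d := sum_nonneg fun u _ => by positivity
  have s2' : (P.n : ℝ) ≤ N * l.choose (a + w) + Lo.card := by exact_mod_cast s2
  have hm' : (N : ℝ) * l.choose (a - z) ≤ (univ.filter (fun u => z ≤ P.μ u)).card := by
    exact_mod_cast hm
  have s4' : ((univ.filter (fun u => z ≤ P.μ u)).card : ℝ) ≤ P.n := by exact_mod_cast s4
  have n0 : (0 : ℝ) ≤ P.n := Nat.cast_nonneg _
  have u1 : ‖c‖ * GG P.μ p d ≤ GG P.μ p d := mul_le_of_le_one_left g0 hc1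
  have u2 : A * (1 / 2 : ℝ) ^ t * P.n ≤ (1 - κ) * P.n := mul_le_mul_of_nonneg_right ht2 n0
  have u3 : (1 - κ) * ((N : ℝ) * l.choose (a - z)) ≤ (1 - κ) * P.n :=
    mul_le_mul_of_nonneg_left (hm'.trans s4') hκ1
  have v1 : A * (‖c‖ * GG P.μ p d) ≤ A * ((N : ℝ) * l.choose (a + w) + Lo.card
      - (N : ℝ) * l.choose (a - z) + (1 / 2 : ℝ) ^ t * P.n) :=
    mul_le_mul_of_nonneg_left (by linarith) hA
  rw [← cLo]
  nlinarith

end Pool.Agent.Lib.MP_8a52c3_lc.Corp
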