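import Pool.Agent.Lib.MP_8a52c3_lc.Corp.Defs

namespace Pool.Agent.Lib.MP_8a52c3_lc.Corp
open Finset

variable {K : Type} [Field K]

theorem LD_mono {σ : Type} {a b : ℕ} (h : a ≤ b) : LD K σ a ≤ LD K σ b :=
  Submodule.span_mono fun _ ⟨S, hS, e⟩ => ⟨S, hS.trans h, e⟩

theorem mon_mem {σ : Type} {b : ℕ} (S : Finset σ) (h : S.card ≤ b) : mon K S ∈ LD K σ b :=
  Submodule.subset_span ⟨S, h, rfl⟩

theorem const_mem (σ : Type) (b : ℕ) (c : K) : (fun _ => c) ∈ LD K σ b := by
  have h := (LD K σ b).smul_mem c (mon_mem (∅ : Finset σ) (Nat.zero_le b))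
  convert h using 1
  funext x
  simp [mon]

theorem var_mem {σ : Type} (v : σ) : (fun x : σ → Bool => bv K (x v)) ∈ LD K σ 1 := by
  have h := mon_mem (K := K) (b := 1) ({v} : Finset σ) (by simp)
  convert h using 1
  funext x
  simp [mon]

theorem lowdeg_not (b : Bool) : bv K (!b) = 1 - bv K b := by
  cases b <;> simp [bv]

theorem nvar_mem {σ : Type} (v : σ) : (fun x : σ → Bool => bv K (!x v)) ∈ LD K σ 1 := by
  have h := sub_mem (const_mem σ 1 (1 : K)) (var_mem (K := K) v)
  convert h using 1
  funext x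
  simp [lowdeg_not]

theorem lowdeg_sq (b : Bool) : bv K b * bv K b = bv K b := by
  cases b <;> simp [bv]

theorem lowdeg_mon_mul {σ : Type} [DecidableEq σ] (S T : Finset σ) :
    mon K S * mon K T = mon K (S ∪ T) := by
  funext x
  simp only [Pi.mul_apply, mon]
  have e : (∏ v ∈ S ∩ T, bv K (x v)) * ∏ v ∈ S ∩ T, bv K (x v) = ∏ v ∈ S ∩ T, bv K (x v) := by
    rw [← prod_mul_distrib]
    exact prod_congr rfl fun v _ => lowdeg_sq _
  rw [← prod_union_inter, ← prod_sdiff (inter_subset_union (s := S) (t := T)), mul_assoc, e]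

theorem LD_mul {σ : Type} {a b : ℕ} {f g : (σ → Bool) → K} (hf : f ∈ LD K σ a)
    (hg : g ∈ LD K σ b) : f * g ∈ LD K σ (a + b) := by
  classical
  induction hf using Submodule.span_induction with
  | zero => simp
  | add f f' _ _ h1 h2 => rw [add_mul]; exact add_mem h1 h2
  | smul c f _ h1 => rw [smul_mul_assoc]; exact Submodule.smul_mem _ c h1
  | mem f hf =>
    obtain ⟨S, hS, rfl⟩ := hf
    induction hg using Submodule.span_induction with
    | zero => simp
    | add g g' _ _ h1 h2 => rw [mul_add]; exact add_mem h1 h2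
    | smul c g _ h1 => rw [mul_smul_comm]; exact Submodule.smul_mem _ c h1
    | mem g hg =>
      obtain ⟨T, hT, rfl⟩ := hg
      rw [lowdeg_mon_mul]
      exact mon_mem _ ((card_union_le S T).trans (Nat.add_le_add hS hT))

theorem lowdeg_prod {σ τ : Type} (S : Finset σ) (φ : σ → (τ → Bool) → K) (e : σ → ℕ)
    (hφ : ∀ v, φ v ∈ LD K τ (e v)) : (fun y => ∏ v ∈ S, φ v y) ∈ LD K τ (∑ v ∈ S, e v) := by
  classical
  induction S using Finset.induction_on with
  | empty => simpa using const_mem τ 0 (1 : K)
  | insert v S hv ih =>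
    simp only [prod_insert hv, sum_insert hv]
    exact LD_mul (hφ v) ih

/-- Substitution of Boolean functions of degree at most `e`. -/
theorem LD_comp {σ τ : Type} {b e : ℕ} {f : (σ → Bool) → K} (hf : f ∈ LD K σ b)
    (φ : σ → (τ → Bool) → Bool) (hφ : ∀ v, (fun y => bv K (φ v y)) ∈ LD K τ e) :
    (fun y => f (fun v => φ v y)) ∈ LD K τ (b * e) := by
  induction hf using Submodule.span_induction with
  | zero => exact zero_mem _
  | add f f' _ _ h1 h2 => exact add_mem h1 h2
  | smul c f _ h1 => exact Submodule.smul_mem _ c h1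
  | mem f hf =>
    obtain ⟨S, hS, rfl⟩ := hf
    refine LD_mono ?_ (lowdeg_prod S (fun v y => bv K (φ v y)) (fun _ => e) hφ)
    rw [sum_const, smul_eq_mul]
    exact Nat.mul_le_mul_right e hS

theorem wt_le {σ : Type} [Fintype σ] (x : σ → Bool) : wt x ≤ Fintype.card σ := card_le_univ _

theorem wt_flip {σ : Type} [Fintype σ] (x : σ → Bool) :
    wt (fun v => !x v) + wt x = Fintype.card σ := by
  have e : ∀ a : Bool, (!a) = true ↔ ¬ a = true := by decide
  simp only [wt, e]
  rw [add_comm, card_filter_add_card_filter_not, card_univ]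

/-- The indicator vector of a set. -/
def lowdeg_ind {σ : Type} [DecidableEq σ] (S : Finset σ) : σ → Bool := fun v => decide (v ∈ S)

theorem lowdeg_filter {σ : Type} [Fintype σ] [DecidableEq σ] (S : Finset σ) :
    univ.filter (fun v => lowdeg_ind S v = true) = S := by
  ext v
  simp [lowdeg_ind]

theorem lowdeg_ind_filter {σ : Type} [Fintype σ] [DecidableEq σ] (x : σ → Bool) :
    lowdeg_ind (univ.filter fun v => x v = true) = x := by
  funext v
  simp [lowdeg_ind]

theorem card_wt_eq (l i : ℕ) :
    (univ.filter (fun x : Fin l → Bool => wt x = i)).card = l.choose i := by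
  have h := card_powersetCard i (univ : Finset (Fin l))
  rw [card_univ, Fintype.card_fin] at h
  rw [← h]
  refine card_nbij' (fun x => univ.filter fun v => x v = true) lowdeg_ind ?_ ?_ ?_ ?_
  · intro x hx
    rw [mem_coe, mem_filter] at hx
    exact mem_coe.2 (mem_powersetCard.2 ⟨subset_univ _, hx.2⟩)
  · intro S hS
    rw [mem_coe, mem_powersetCard] at hS
    rw [mem_coe, mem_filter, wt, lowdeg_filter]
    exact ⟨mem_univ _, hS.2⟩
  · exact fun x _ => lowdeg_ind_filter x
  · exact fun S _ => lowdeg_filter S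

theorem lowdeg_cube {σ : Type} [DecidableEq σ] {b : ℕ} {f : (σ → Bool) → K} (hf : f ∈ LD K σ b)
    {T : Finset σ} (hT : b < T.card) :
    ∑ S ∈ T.powerset, (-1 : K) ^ S.card * f (lowdeg_ind S) = 0 := by
  induction hf using Submodule.span_induction with
  | zero => simp
  | add f f' _ _ h1 h2 => simp only [Pi.add_apply, mul_add, sum_add_distrib, h1, h2, add_zero]
  | smul c f _ h1 =>
    simp only [Pi.smul_apply, smul_eq_mul, mul_left_comm _ c, ← mul_sum, h1, mul_zero]
  | mem f hf =>
    obtain ⟨A, hA, rfl⟩ := hf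
    obtain ⟨t, ht, htA⟩ := exists_mem_notMem_of_card_lt_card (hA.trans_lt hT)
    rw [← insert_erase ht, sum_powerset_insert (notMem_erase t T), ← sum_add_distrib]
    refine sum_eq_zero fun S hS => ?_
    have e : mon K A (lowdeg_ind (insert t S)) = mon K A (lowdeg_ind S) := by
      refine prod_congr rfl fun v hv => ?_
      have : v ≠ t := fun h => htA (h ▸ hv)
      simp [lowdeg_ind, this]
    have hts : t ∉ S := fun h => notMem_erase t T (mem_powerset.1 hS h)
    rw [e, card_insert_of_notMem hts, pow_succ]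
    ring

theorem vanish_low {σ : Type} [Fintype σ] {b : ℕ} {f : (σ → Bool) → K} (hf : f ∈ LD K σ b)
    (h : ∀ x, wt x ≤ b → f x = 0) : f = 0 := by
  classical
  have key : ∀ T : Finset σ, f (lowdeg_ind T) = 0 := by
    intro T
    induction T using Finset.strongInduction with
    | H T ih =>
      by_cases hT : b < T.card
      · have h1 := lowdeg_cube hf hT
        rw [sum_eq_single_of_mem T (mem_powerset_self T) fun S hS hne => by
          rw [ih S (Finset.ssubset_iff_subset_ne.2 ⟨mem_powerset.1 hS, hne⟩), mul_zero]] at h1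
        exact (mul_eq_zero.1 h1).resolve_left (pow_ne_zero _ (neg_ne_zero.2 one_ne_zero))
      · refine h _ ?_
        rw [wt, lowdeg_filter]
        omega
  funext x
  rw [← lowdeg_ind_filter x]
  exact key _

theorem vanish_high {σ : Type} [Fintype σ] {b : ℕ} {f : (σ → Bool) → K} (hf : f ∈ LD K σ b)
    (h : ∀ x, Fintype.card σ ≤ wt x + b → f x = 0) : f = 0 := by
  have h1 := LD_comp hf (fun v (y : σ → Bool) => !y v) fun v => nvar_mem v
  rw [mul_one] at h1
  have h2 := vanish_low h1 fun x hx => h _ (by have := wt_flip x; omega)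
  funext x
  have h3 := congrFun h2 fun v => !x v
  simp only [Bool.not_not] at h3
  exact h3

end Pool.Agent.Lib.MP_8a52c3_lc.Corp
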